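import Pool.Agent.H12.FB.Df
import Pool.Agent.H1.S3.Onto
import Pool.Agent.H12.S3.Fsc
import Pool.Agent.H12.S3.Fsx

/-!
# [H12 FB FSB] the homomorphisms of the fibre and of the type (MP_b39724_nt, stage 3, assembly of chapter B)

`fsb`: the sum of `wF` over the homomorphisms `Fb` of H71/S3/Cnw is the sum of `wps` over `FS .. (2 * Y)`.
PROOF. `wF = wps` (`wf_wps`: `Tg G = Tc c`, `lf = lft`, `Rich` is `Rcl`). If `wps φ ≠ 0` then `φ ∈ FS .. (2 Y) ↔ Fb φ`: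
`FS → Fb` (`fb_of`): if `v ∉ S0`, `v ∉ E`, `φ (t v) ≠ 1` then `v` is good, `nm v ≤ 2 Y ≤ Y ^ C₁` (`X = {v}` in the last clause of `FS`), so `v ∈ Zw` (`Wq.all`), `v ∈ Zg`. `At` at `v ∈ S0` from `TqT` (`A.a i`, `B.b i ∈ dec`: `B.ad`, `B.bd`),
at `v ∈ E` from the clause on `E` (`s v = 1`: `(cjL L s).t v = L.t v`, `(cjF Fr s).F v = Fr.F v`; the conditions of `At` at the `i` with `B.pl i = v` are void since `v ∉ S0`).
`Fb → FS` (`fs_of`): `φ = φb` modulo `T`: `hon_eqU` for the two homomorphisms to `P ⧸ T` (both unramified outside `Zc ∪ E`; same values at `t v`, `a i`). `TqT`: `SGn` for the pair `(φ, φ') : Γ → P × P`: the subgroup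
`{(g y g⁻¹, y)}` contains the generators. `nr ≤ 2 Y`: `ψ (nr (sp ..) / Y) ≠ 0` and `Cut.van` give `nr (sp ..) ≤ 2 Y`; the ramified primes outside `S0 ∪ E` are in `sp Zc (lft ..)`. Surjective: H1/S3/Onto (`hom_onto`).
`FS (cjL L s) (cjF Fr s) .. = FS L Fr ..`: `H12.S3.fs_cj`.
-/

set_option autoImplicit false

open scoped NumberField commutatorElement
open IsDedekindDomain Filter Topology
open scoped Classical

noncomputable section

namespace H12.FB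

open H38.ML H63.MA H38.BB H38.BG H57.PC H57.BRA H77.WD H77.WE H77.GL H77.PC3 H35.CF H35.UB H77.S3
  H71.S3 H1.S3 H73.S3 H24.RK H12.S3 H51.F3 H51.PF

attribute [local instance 50] Fintype.ofFinite

section gen

variable {V P : Type} [Group P]

/-- the means over the conjugators -/
theorem mean_eq {T T' : Subgroup P} [i : Fintype T] [i' : Fintype T'] (h : T = T') (Z : Finset V)
    (g : (Z → T) → ℂ) (g' : (Z → T') → ℝ)
    (hg : ∀ (τ : Z → T) (τ' : Z → T'), (∀ v, (τ v : P) = τ' v) → g τ = (g' τ' : ℂ)) :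
    (∑ τ : Z → T, g τ) / (Nat.card T : ℂ) ^ Z.card =
      (((∑ τ : Z → T', g' τ) / (Nat.card T' : ℝ) ^ Z.card : ℝ) : ℂ) := by
  subst h
  obtain rfl : i = i' := Subsingleton.elim _ _
  rw [Complex.ofReal_div, Complex.ofReal_pow, Complex.ofReal_natCast, Complex.ofReal_sum]
  congr 1
  exact Fintype.sum_equiv (Equiv.refl _) _ _ fun τ => hg τ τ fun _ => rfl

end gen

variable {K : IntermediateField ℚ QBar} [NumberField K] {p N : ℕ} {ζ : K} {D : RD0 K p ζ}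
  {P : Type} [Group P] {c : CL p N P} {S : Type} [Group S] [MulDistribMulAction P S]
  {Q : DP K QBar} {A : GS D QBar}

/-- the two weights are equal -/
theorem wf_wps [Fintype S] [Fintype P] (G : SG c S) (hT : Tg G = Tc c) {L : LDs D QBar}
    {Fr : FR L} (B : SD D Q A) (φb φ' : Gal(QBar/K) →* P) (E : Finset (Pl K)) (sv : Pl K → S)
    (si : Fin A.g → S) {Y T : ℝ} (M : ℕ) (s : Pl K → Gal(QBar/K)) (Zw : Finset (Pl K))
    (l : List (Pl K)) (Wv : Pl K → FW A) (Wi : Fin A.g → FW A) (Zc : Finset (Pl K)) (ψ : ℝ → ℝ)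
    (φ : Gal(QBar/K) →* P) :
    wF G (wfs L Fr s Zw l Wv Wi) Zc (wR (fdx L Fr B φb φ' E sv si)
        (wfs L Fr s Zw l Wv Wi) T Zc M ψ Y) φ =
      ((wps c (cjF Fr s) φb M T Y Zc ψ φ : ℝ) : ℂ) := by
  unfold wF wps
  refine mean_eq hT Zc _ _ fun τ τ' h => ?_
  have h1 : xz τ = H12.S3.xt τ' := by
    funext v
    unfold xz H12.S3.xt
    by_cases hv : v ∈ Zc
    · rw [dif_pos hv, dif_pos hv, h]
    · rw [dif_neg hv, dif_neg hv]
  have h2 : lf c (wfs L Fr s Zw l Wv Wi) Zc φ (xz τ) = lft c (cjL L s) Zc φ (H12.S3.xt τ') := by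
    rw [h1]
    rfl
  rw [h2]
  have h3 : Rich (fdx L Fr B φb φ' E sv si) (wfs L Fr s Zw l Wv Wi) T Zc M
      (lft c (cjL L s) Zc φ (H12.S3.xt τ')) ↔
      Rcl c (cjF Fr s) φb M T Zc (lft c (cjL L s) Zc φ (H12.S3.xt τ')) := by
    unfold Rich Rcl pl
    refine forall_congr' fun x => ?_
    constructor
    · refine fun h => h.trans (le_of_eq (congrArg Finset.card (Finset.ext fun v => ?_)))
      simp only [Finset.mem_filter, and_assoc]
      exact Iff.rfl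
    · refine fun h => h.trans (le_of_eq (congrArg Finset.card (Finset.ext fun v => ?_)))
      simp only [Finset.mem_filter, and_assoc]
      exact Iff.rfl
  unfold wR
  by_cases h4 : Rcl c (cjF Fr s) φb M T Zc (lft c (cjL L s) Zc φ (H12.S3.xt τ'))
  · rw [if_pos (h3.2 h4), if_pos h4]
  · rw [if_neg fun h => h4 (h3.1 h), if_neg h4, Complex.ofReal_zero]

/-- from `FS` to `Fb` -/
theorem fb_of (G : SG c S) (hT : Tg G = Tc c) {L : LDs D QBar}
    {Fr : FR L} (B : SD D Q A)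
    {φb φ' : Gal(QBar/K) →* P} {E : Finset (Pl K)} (sv : Pl K → S)
    (si : Fin A.g → S) {k j : ℕ} {z : K} {C₁ Y : ℝ} (hC : 2 * Y ≤ Y ^ C₁)
    {s : Pl K → Gal(QBar/K)} (hs : ∀ v ∈ E, s v = 1) {Zw : Finset (Pl K)}
    {l : List (Pl K)} {Wv : Pl K → FW A} {Wi : Fin A.g → FW A}
    (hW : Wq B E k j z C₁ Y (wfs L Fr s Zw l Wv Wi)) {φ : Gal(QBar/K) →* P}
    (hφ : φ ∈ FS (cjL L s) (cjF Fr s) Q c φb φ' E (2 * Y)) :
    Fb G B (fdx L Fr B φb φ' E sv si) (wfs L Fr s Zw l Wv Wi) (H35.UB.Zg D Zw E) φ := by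
  obtain ⟨h1, -, -, h4, h5, h6, h7⟩ := hφ
  refine ⟨⟨h1, fun v hv hZ => ?_⟩, fun v hv hne => ?_, fun v hv => ?_⟩
  · by_contra hne
    have hvE : v ∉ E := fun h => hZ (Finset.mem_union_right _ h)
    obtain ⟨h8, -⟩ := h6 v hv hvE hne
    have h9 : nr ({v} : Finset (Pl K)) ≤ 2 * Y := h7 {v} fun w hw => by
      rw [Finset.mem_singleton.1 hw]
      exact ⟨hv, hvE, hne⟩
    rw [nr, Finset.prod_singleton] at h9
    have h10 : v ∈ Zw := hW.all v h8 (h9.trans hC)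
    exact hZ (Finset.mem_union_left _ (Finset.mem_filter.2
      ⟨Finset.mem_sdiff.2 ⟨h10, hvE⟩, h8⟩))
  · obtain ⟨h8, h9⟩ := Finset.mem_filter.1 hv
    exact (h6 v h9.1 (Finset.mem_sdiff.1 h8).2 hne).2
  · rw [hT]
    by_cases hv0 : v ∈ D.S0
    · obtain ⟨g, hg, hgd⟩ := h4 v hv0
      refine ⟨g, hg, fun i hi => ⟨?_, ?_⟩, fun h => absurd hv0 h⟩
      · exact hgd _ (by rw [← hi]; exact B.ad i)
      · exact hgd _ (by rw [← hi]; exact B.bd i)
    · have hvE : v ∈ E := (Finset.mem_union.1 hv).resolve_left hv0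
      obtain ⟨g, hg, hg1, hg2⟩ := h5 v hvE
      refine ⟨g, hg, fun i hi => absurd (B.mem i) (by rw [hi]; exact hv0), fun _ => ?_⟩
      rw [cj_t1 L s (hs v hvE)] at hg1
      rw [cj_F1 Fr s (hs v hvE)] at hg2
      refine ⟨?_, ?_⟩
      · show φ ((cjL L s).t v) = _
        rw [cj_t1 L s (hs v hvE)]
        exact hg1
      · show φ ((cjF Fr s).F v) = _
        rw [cj_F1 Fr s (hs v hvE)]
        exact hg2

/-- conjugates by elements of `T` are equal modulo `T` -/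
theorem mk_cj (T : Subgroup P) [T.Normal] {τ x : P} (hτ : τ ∈ T) :
    ((τ * x * τ⁻¹ : P) : P ⧸ T) = (x : P ⧸ T) := by
  have h : ((τ : P) : P ⧸ T) = 1 := (QuotientGroup.eq_one_iff τ).2 hτ
  rw [QuotientGroup.mk_mul, QuotientGroup.mk_mul, QuotientGroup.mk_inv, h, one_mul, inv_one,
    mul_one]

instance : (Tc c).Normal := Subgroup.normalClosure_normal

/-- from `Fb` to `FS` -/
theorem fs_of [Fintype P] (hp : p.Prime) (hζ : IsPrimitiveRoot ζ p) (hP : IsPGroup p P)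
    (G : SG c S) (hT : Tg G = Tc c) {L : LDs D QBar} {Fr : FR L} (B : SD D Q A) (hS : SGn p B)
    {φb φ' : Gal(QBar/K) →* P} {E : Finset (Pl K)} (hF : Fib L c φb φ' E) (sv : Pl K → S)
    (si : Fin A.g → S) {Y : ℝ} {s : Pl K → Gal(QBar/K)} (hs : ∀ v ∈ E, s v = 1)
    {Zw : Finset (Pl K)} {l : List (Pl K)} {Wv : Pl K → FW A} {Wi : Fin A.g → FW A}
    {φ : Gal(QBar/K) →* P} (hr : ∀ i, ∃ σ, IsConj (φ σ) (c.g i)) {τ : Pl K → P}
    (hY : nr (sp (H35.UB.Zg D Zw E) (lft c (cjL L s) (H35.UB.Zg D Zw E) φ τ)) ≤ 2 * Y)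
    (hφ : Fb G B (fdx L Fr B φb φ' E sv si) (wfs L Fr s Zw l Wv Wi) (H35.UB.Zg D Zw E) φ) :
    φ ∈ FS (cjL L s) (cjF Fr s) Q c φb φ' E (2 * Y) := by
  obtain ⟨h1, h2, h3⟩ := hφ
  rw [hT] at h3
  have hZE : ∀ v ∈ H35.UB.Zg D Zw E, v ∉ E ∧ D.Gd v := fun v hv =>
    ⟨(Finset.mem_sdiff.1 (Finset.mem_filter.1 hv).1).2, (Finset.mem_filter.1 hv).2⟩
  have hgT : ∀ i, c.g i ∈ Tc c := fun i => Subgroup.subset_normalClosure (Set.mem_range_self i)
  have hcT : ∀ (x : P) i, IsConj x (c.g i) → x ∈ Tc c := by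
    intro x i h
    obtain ⟨w, hw⟩ := isConj_iff.1 h.symm
    rw [← hw]
    exact (inferInstance : (Tc c).Normal).conj_mem _ (hgT i) _
  have heq : ∀ σ, ((φ' σ : P) : P ⧸ Tc c) = (φb σ : P ⧸ Tc c) := fun σ =>
    (QuotientGroup.eq.2 (hF.eq σ)).symm
  have hbu : ∀ v, v ∉ D.S0 → v ∉ E → φb ((cjL L s).t v) = 1 := fun v hv hE =>
    (cj_ne L s hv φb).2 (hF.un v hv hE)
  have key : (QuotientGroup.mk' (Tc c)).comp φ = (QuotientGroup.mk' (Tc c)).comp φb := by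
    refine hon_eqU hp hζ (cjL L s) A (H35.UB.Zg D Zw E ∪ E) _ _ (h1.comp _)
      (Unz.comp _ ⟨hF.ft, fun v hv hZ => hbu v hv fun h => hZ (Finset.mem_union_right _ h)⟩)
      ((hP.to_quotient _).to_subgroup _) ((hP.to_quotient _).to_subgroup _) (fun v hv => ?_)
      fun i => ?_
    · show ((φ ((cjL L s).t v) : P) : P ⧸ Tc c) = (φb ((cjL L s).t v) : P ⧸ Tc c)
      rcases Finset.mem_union.1 hv with hv | hv
      · obtain ⟨hvE, hvG⟩ := hZE v hv
        rw [hbu v hvG.1 hvE, QuotientGroup.mk_one]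
        refine (QuotientGroup.eq_one_iff _).2 ?_
        by_cases hne : φ ((cjL L s).t v) = 1
        · rw [hne]
          exact one_mem _
        · obtain ⟨i, hi⟩ := h2 v hv hne
          exact hcT _ i hi
      · obtain ⟨τ, hτ, -, hat⟩ := h3 v (Finset.mem_union_right _ hv)
        have h4 : φ ((cjL L s).t v) = τ * φ' (L.t v) * τ⁻¹ := (hat (hF.gd v hv).1).1
        rw [h4, mk_cj _ hτ, heq, cj_t1 L s (hs v hv)]
    · show ((φ (A.a i) : P) : P ⧸ Tc c) = (φb (A.a i) : P ⧸ Tc c)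
      obtain ⟨τ, hτ, hat, -⟩ := h3 (B.pl i) (Finset.mem_union_left _ (B.mem i))
      have h4 : φ (A.a i) = τ * φ' (A.a i) * τ⁻¹ := (hat i rfl).1
      rw [h4, mk_cj _ hτ, heq]
  have hm : ∀ σ, (φb σ)⁻¹ * φ σ ∈ Tc c := fun σ =>
    QuotientGroup.eq.1 (DFunLike.congr_fun key σ).symm
  have hrm : ∀ v, v ∉ D.S0 → v ∉ E → φ ((cjL L s).t v) ≠ 1 → v ∈ H35.UB.Zg D Zw E := by
    intro v hv hvE hne
    by_contra hZ
    exact hne (h1.2 v hv fun h => (Finset.mem_union.1 h).elim hZ hvE)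
  refine ⟨h1.1, hom_onto hp hP c hF.sj hm hr, hm, fun v hv => ?_, fun v hv => ?_,
    fun v hv hvE hne => ⟨(hZE v (hrm v hv hvE hne)).2, h2 v (hrm v hv hvE hne) hne⟩,
    fun X hX => ?_⟩
  · obtain ⟨τ, hτ, hat, -⟩ := h3 v (Finset.mem_union_left _ hv)
    refine ⟨τ, hτ, fun σ hσ => ?_⟩
    have hPP : IsPGroup p (P × P) := by
      rintro ⟨x, y⟩
      obtain ⟨a, ha⟩ := hP x
      obtain ⟨b, hb⟩ := hP y
      refine ⟨a + b, Prod.ext ?_ ?_⟩
      · show x ^ p ^ (a + b) = 1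
        rw [pow_add, pow_mul, ha, one_pow]
      · show y ^ p ^ (a + b) = 1
        rw [pow_add, mul_comm, pow_mul, hb, one_pow]
    have h4 := hS v hv (P × P) hPP (φ.prod φ') (gtame_ft_prod _ _ h1.1 hF.ft') σ hσ
    have h5 : Subgroup.closure {x : P × P | ∃ i, B.pl i = v ∧
        (x = (φ.prod φ') (A.a i) ∨ x = (φ.prod φ') (B.b i))} ≤
        (MonoidHom.eqLocus (MonoidHom.fst P P)
          ((MulAut.conj τ).toMonoidHom.comp (MonoidHom.snd P P))) := by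
      rw [Subgroup.closure_le]
      rintro x ⟨i, hi, hx⟩
      obtain ⟨ha, hb⟩ := hat i hi
      rcases hx with hx | hx
      · rw [hx]
        exact ha
      · rw [hx]
        exact hb
    exact h5 h4
  · obtain ⟨τ, hτ, -, hat⟩ := h3 v (Finset.mem_union_right _ hv)
    obtain ⟨h4, h5⟩ := hat (hF.gd v hv).1
    refine ⟨τ, hτ, ?_, ?_⟩
    · rw [cj_t1 L s (hs v hv)]
      have h6 : φ ((cjL L s).t v) = τ * φ' (L.t v) * τ⁻¹ := h4
      rwa [cj_t1 L s (hs v hv)] at h6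
    · rw [cj_F1 Fr s (hs v hv)]
      have h6 : φ ((cjF Fr s).F v) = τ * φ' (Fr.F v) * τ⁻¹ := h5
      rwa [cj_F1 Fr s (hs v hv)] at h6
  · refine (nr_mono fun v hv => ?_).trans hY
    obtain ⟨hv0, hvE, hne⟩ := hX v hv
    have hvZ := hrm v hv0 hvE hne
    refine Finset.mem_filter.2 ⟨hvZ, ?_⟩
    obtain ⟨i, hi⟩ := h2 v hvZ hne
    have h4 : ∃ i, IsConj ((τ v)⁻¹ * φ ((cjL L s).t v) * τ v) (c.g i) := by
      refine ⟨i, IsConj.trans (isConj_iff.2 ⟨τ v, ?_⟩) hi⟩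
      simp only [mul_assoc, mul_inv_cancel_left, mul_inv_cancel, mul_one]
      rfl
    unfold H12.S3.lft
    rw [dif_pos ⟨hvZ, hne, h4⟩]
    exact Option.some_ne_none _

theorem fsb [Fintype S] [Fintype P] (hp : p.Prime) (hζ : IsPrimitiveRoot ζ p) (hP : IsPGroup p P)
    (G : SG c S) (hT : Tg G = Tc c) {L : LDs D QBar} {Fr : FR L} (B : SD D Q A) (hS : SGn p B)
    {φb φ' : Gal(QBar/K) →* P} {E : Finset (Pl K)} (hF : Fib L c φb φ' E) (sv : Pl K → S)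
    (si : Fin A.g → S) {k j M : ℕ} {z : K} {C₁ Y T : ℝ} (hY : 0 < Y) (hC : 2 * Y ≤ Y ^ C₁)
    (hM : 1 ≤ M) {s : Pl K → Gal(QBar/K)} (hs : ∀ v ∈ E, s v = 1) {Zw : Finset (Pl K)}
    {l : List (Pl K)} {Wv : Pl K → FW A} {Wi : Fin A.g → FW A}
    (hW : Wq B E k j z C₁ Y (wfs L Fr s Zw l Wv Wi)) {ψ : ℝ → ℝ} (hψ : Cut ψ) :
    ∑ᶠ φ : {φ : Gal(QBar/K) →* P //
        Fb G B (fdx L Fr B φb φ' E sv si) (wfs L Fr s Zw l Wv Wi) (H35.UB.Zg D Zw E) φ},
      wF G (wfs L Fr s Zw l Wv Wi) (H35.UB.Zg D Zw E) (wR (fdx L Fr B φb φ' E sv si)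
        (wfs L Fr s Zw l Wv Wi) T (H35.UB.Zg D Zw E) M ψ Y) φ.1 =
    ((∑ᶠ φ ∈ FS L Fr Q c φb φ' E (2 * Y),
      wps c (cjF Fr s) φb M T Y (H35.UB.Zg D Zw E) ψ φ : ℝ) : ℂ) := by
  rw [finsum_subtype_eq_finsum_cond (f := fun φ => wF G (wfs L Fr s Zw l Wv Wi)
      (H35.UB.Zg D Zw E) (wR (fdx L Fr B φb φ' E sv si) (wfs L Fr s Zw l Wv Wi) T
        (H35.UB.Zg D Zw E) M ψ Y) φ)
    (Fb G B (fdx L Fr B φb φ' E sv si) (wfs L Fr s Zw l Wv Wi) (H35.UB.Zg D Zw E))]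
  have hfin : (FS L Fr Q c φb φ' E (2 * Y)).Finite := fs_fin hp hζ L Fr Q hP c φb φ' E _
  have hcast := Complex.ofRealHom.toAddMonoidHom.map_finsum_mem
    (fun φ => wps c (cjF Fr s) φb M T Y (H35.UB.Zg D Zw E) ψ φ) hfin
  refine Eq.trans ?_ hcast.symm
  refine finsum_congr fun φ => ?_
  rw [wf_wps G hT B φb φ' E sv si M s Zw l Wv Wi (H35.UB.Zg D Zw E) ψ φ]
  by_cases h0 : wps c (cjF Fr s) φb M T Y (H35.UB.Zg D Zw E) ψ φ = 0
  · rw [h0, Complex.ofReal_zero]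
    simp
  · have hiff : Fb G B (fdx L Fr B φb φ' E sv si) (wfs L Fr s Zw l Wv Wi)
        (H35.UB.Zg D Zw E) φ ↔ φ ∈ FS L Fr Q c φb φ' E (2 * Y) := by
      rw [← fs_cj L Fr Q c φb φ' s hs]
      constructor
      · intro hφ
        obtain ⟨τ, hτ1, hτ2⟩ : ∃ τ : ↥(H35.UB.Zg D Zw E) → Tc c,
            Rcl c (cjF Fr s) φb M T (H35.UB.Zg D Zw E)
              (lft c (cjL L s) (H35.UB.Zg D Zw E) φ (H12.S3.xt τ)) ∧
            ψ (nr (sp (H35.UB.Zg D Zw E)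
              (lft c (cjL L s) (H35.UB.Zg D Zw E) φ (H12.S3.xt τ))) / Y) ≠ 0 := by
          by_contra hne
          push Not at hne
          apply h0
          unfold wps
          rw [Finset.sum_eq_zero, zero_div]
          intro τ _
          by_cases h1 : Rcl c (cjF Fr s) φb M T (H35.UB.Zg D Zw E)
              (lft c (cjL L s) (H35.UB.Zg D Zw E) φ (H12.S3.xt τ))
          · rw [if_pos h1]
            exact hne τ h1
          · rw [if_neg h1]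
        refine fs_of hp hζ hP G hT B hS hF sv si hs (fun i => ?_) (τ := H12.S3.xt τ) ?_ hφ
        · obtain ⟨v, hv⟩ := Finset.card_pos.1 (lt_of_lt_of_le (Nat.lt_of_lt_of_le Nat.zero_lt_one hM)
            (hτ1 ⟨c.g i, i, IsConj.refl _⟩))
          have h2 : lft c (cjL L s) (H35.UB.Zg D Zw E) φ (H12.S3.xt τ) v =
              some ⟨c.g i, i, IsConj.refl _⟩ := by
            unfold pl at hv
            simp only [Finset.mem_filter] at hv
            exact hv.1.2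
          unfold H12.S3.lft at h2
          split_ifs at h2 with h3
          have h4 : (H12.S3.xt τ v)⁻¹ * φ ((cjL L s).t v) * H12.S3.xt τ v = c.g i :=
            congrArg Subtype.val (Option.some.inj h2)
          refine ⟨(cjL L s).t v, isConj_iff.2 ⟨(H12.S3.xt τ v)⁻¹, ?_⟩⟩
          rw [inv_inv, h4]
        · by_contra hlt
          apply hτ2
          refine hψ.van _ ?_
          rw [le_div_iff₀ hY]
          exact (not_le.1 hlt).le
      · exact fb_of G hT B sv si hC hs hW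
    exact finsum_congr_Prop (propext hiff) fun _ => rfl

end H12.FB
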