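import Pool.Agent.H12.FB.Df

/-!
# [H12 FB MMC] the last stage (MP_b39724_nt, stage 3, assembly of chapter B)

`mmc`: `Mm c₀` is the weighted sum over the homomorphisms, from `hc_eq`, `hg_adf`, `cnw`, `adf_ok`.
-/

set_option autoImplicit false

open scoped NumberField commutatorElement
open IsDedekindDomain Filter Topology
open scoped Classical

noncomputable section

namespace H12.FB

open H38.ML H63.MA H38.BB H38.BG H57.PC H57.BRA H77.WD H77.WE H77.GL H77.PC3 H35.CF H35.UB H77.S3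
  H71.S3 H1.S3 H73.S3 H24.RK

attribute [local instance 50] Fintype.ofFinite

variable {K : Type} [Field K] [NumberField K] {Ω : Type} [Field Ω] [Algebra K Ω]
  {p N : ℕ} {ζ : K} {D : RD0 K p ζ} {Q : DP K Ω} {A : GS D Ω} {P : Type} [Group P]
  {c : CL p N P} {S : Type} [Group S] [MulDistribMulAction P S]

theorem mmc [Fintype S] [Fintype P] [IsAlgClosure K Ω] (hp : p.Prime) (hζ : IsPrimitiveRoot ζ p)
    (G : SG c S) (B : SD D Q A) (X : FD A P S) (W : WF A) {k Mw q c₀ : ℕ} [NeZero q] (T : ℝ)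
    (Zc : Finset (Pl K)) (h : NgOk G B X W k Mw q c₀ T Zc) (hc : 1 ≤ c₀) (hP : Sml p k Mw P)
    (M : ℕ) (hM : 1 ≤ M) (ψ : ℝ → ℝ) (Y : ℝ) :
    Mm G B X W T Zc (wR X W T Zc M ψ Y) c₀ =
      (∏ v ∈ BB D X.E, ((Nat.card (Cen B (Tg G) X.l v) : ℂ) / (Nat.card (Tg G) : ℂ))) *
        ∑ᶠ φ : {φ : Gal(Ω/K) →* P // Fb G B X W Zc φ}, wF G W Zc (wR X W T Zc M ψ Y) φ.1 := by
  rw [← cnw hp hζ G B X W h.okX h.okW hP T Zc h.ze h.zc h.ez]
  unfold Mm
  refine Finset.sum_congr rfl fun f hf => ?_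
  by_cases hr : Rich X W T Zc M f
  · have hOk := adf_ok hp G B X W h.okX h.okW T Zc h.ze h.zc h.ez f (fun s => hM.trans (hr s))
      h.pP h.pS h.nil h.qe h.kM h.mx h.qp
    refine congrArg _ (congrArg _ (funext fun τ => ?_))
    exact hc_eq (adf G B X W T Zc f) hp hOk hc (fun x u _ hu hx =>
      hg_adf G B X W T Zc f h.ze hc h.nil x u hu hx) τ
  · have h0 : wR X W T Zc M ψ Y f = 0 := if_neg hr
    rw [h0, zero_mul, zero_mul]

end H12.FB
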