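import Pool.Agent.H12.FB.Phx
import Pool.Agent.H82.S3.Sgi

/-!
# [H12 FB ONP] lemmas for the packing of stage 1 (MP_b39724_nt, stage 3)

* `tg_eq`: `Tg G = Tc c`. `rcl_rich`: `Rcl` is `Rich`. `zh_eqv`: `ZH` does not depend on the conjugation of the places. `phx_sum`: the sum over the phases.
* `wf0 L Fr`: the local data without words. `q1_w`: `Q1` depends on the places of `E` only. `bx_one`: the trivial character for the type `φb`.
-/

set_option autoImplicit false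

open scoped NumberField commutatorElement
open IsDedekindDomain Filter Topology
open scoped Classical

noncomputable section

namespace H12.FB

open H38.ML H63.MA H38.BB H38.BG H57.PC H57.BRA H77.WD H77.WE H77.GL H77.PC3 H35.CF H35.UB H77.S3
  H71.S3 H1.S3 H73.S3 H24.RK H12.S3 H51.F3 H51.PF

attribute [local instance 50] Fintype.ofFinite

variable {K : IntermediateField ℚ QBar} [NumberField K] {p N : ℕ} {ζ : K} {D : RD0 K p ζ}
  {P : Type} [Group P] {c : CL p N P} {S : Type} [Group S] [MulDistribMulAction P S]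
  {Q : DP K QBar} {A : GS D QBar} {q : ℕ}

theorem sd_card {P N : Type} [Group P] [AddCommGroup N] [DistribMulAction P N] :
    Nat.card (Sd P N) = Nat.card P * Nat.card N := by
  have e : Sd P N ≃ P × N :=
    { toFun := fun a => (a.x, a.n)
      invFun := fun a => ⟨a.2, a.1⟩
      left_inv := fun _ => rfl
      right_inv := fun _ => rfl }
  rw [Nat.card_congr e, Nat.card_prod]

theorem sd_pow {P N : Type} [Group P] [AddCommGroup N] [DistribMulAction P N] (m : N) :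
    ∀ j : ℕ, (⟨m, 1⟩ : Sd P N) ^ j = ⟨j • m, 1⟩
  | 0 => by
    rw [pow_zero, zero_smul]
    rfl
  | j + 1 => by
    rw [pow_succ, sd_pow m j, sd_mul]
    simp only [one_smul, mul_one]
    rw [succ_nsmul]

theorem sd_pg {P N : Type} [Group P] [AddCommGroup N] [DistribMulAction P N] {p r : ℕ}
    (hP : IsPGroup p P) (hN : ∀ m : N, p ^ r • m = 0) : IsPGroup p (Sd P N) := by
  intro z
  obtain ⟨a, ha⟩ := hP z.x
  refine ⟨a + r, ?_⟩
  have h1 : (z ^ p ^ a).x = 1 := by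
    have h2 : Sd.pr (z ^ p ^ a) = (Sd.pr z) ^ p ^ a := map_pow _ _ _
    exact h2.trans ha
  have h2 : z ^ p ^ a = ⟨(z ^ p ^ a).n, 1⟩ := Sd.ext rfl h1
  rw [pow_add, pow_mul, h2, sd_pow, hN]
  rfl

theorem du_q {S : Type} [Group S] {q m : ℕ} (χ : Du S q m) : q • χ = 0 := by
  have h2 : ∀ (j : ℕ) (a : Gr S m), (j • χ).ap a = j • χ.ap a := by
    intro j a
    induction j with
    | zero =>
      rw [zero_smul, zero_smul]
      rfl
    | succ j ih => rw [succ_nsmul, succ_nsmul, ap_add, ih]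
  refine du_ext fun a => ?_
  rw [h2, ap_zero, nsmul_eq_mul, ZMod.natCast_self, zero_mul]

theorem tg_eq (G : SG c S) : Tg G = Tc c := by
  have h1 : Tg G = H82.S3.TL c := by
    unfold Tg H82.S3.TL
    rw [MonoidHom.range_eq_map, ← G.gen, MonoidHom.map_closure]
    congr 1
    ext x
    constructor
    · rintro ⟨_, ⟨y, rfl⟩, rfl⟩
      exact ⟨y, (G.pi_y y).symm⟩
    · rintro ⟨y, rfl⟩
      exact ⟨G.y y, ⟨y, rfl⟩, G.pi_y y⟩
  rw [h1, H82.S3.tl_eq]

omit [MulDistribMulAction P S] in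
theorem rcl_rich [Fintype P] (L : LDs D QBar) (Fr : FR L) (B : SD D Q A)
    (φb φ' : Gal(QBar/K) →* P) (E : Finset (Pl K)) (sv : Pl K → S) (si : Fin A.g → S)
    (s : Pl K → Gal(QBar/K)) (Zw : Finset (Pl K)) (l : List (Pl K)) (Wv : Pl K → FW A)
    (Wi : Fin A.g → FW A) (T : ℝ) (Z : Finset (Pl K)) (M : ℕ) (f : Pl K → Option (Px c)) :
    Rich (fdx L Fr B φb φ' E sv si) (wfs L Fr s Zw l Wv Wi) T Z M f ↔
      Rcl c (cjF Fr s) φb M T Z f := by
  refine forall_congr' fun x => ?_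
  have h : (Z.filter fun v => f v = some x ∧
      PPc (fdx L Fr B φb φ' E sv si) (wfs L Fr s Zw l Wv Wi) T v) =
      (pl Z f x).filter fun v => T < (nm v : ℝ) ∧ φb ((cjF Fr s).F v) = 1 := by
    unfold pl
    rw [Finset.filter_filter]
    ext v
    simp only [Finset.mem_filter]
    exact Iff.rfl
  rw [h]

/-- `ZH` does not depend on the conjugation of the places -/
def zh_eqv (L : LDs D QBar) (s : Pl K → Gal(QBar/K)) {E : Finset (Pl K)}
    {φb : Gal(QBar/K) →* P} (hφ : Unz L E φb) (hφ' : Unz (cjL L s) E φb) :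
    ZH S q (cjL L s) E φb hφ' ≃ ZH S q L E φb hφ :=
  Equiv.subtypeEquivRight fun κ => by
    constructor
    · rintro ⟨Φ, h1, h2⟩
      exact ⟨Φ, (unz_cj L s E Φ).1 h1, h2⟩
    · rintro ⟨Φ, h1, h2⟩
      exact ⟨Φ, (unz_cj L s E Φ).2 h1, h2⟩

theorem phx_sum [Fintype S] [Finite P] [NeZero q] (G : SG c S) {L : LDs D QBar}
    {E : Finset (Pl K)} {φb : Gal(QBar/K) →* P} (hφ : Unz L E φb)
    [Finite (ZH S q L E φb hφ)] (hT : Tg G = Tc c) (F : (phx G hφ hT).Z → ℂ) :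
    ∑ z : (phx G hφ hT).Z, F z =
      ∑ ψ : AddChar (AN G.Pi) ℂ, ∑ κ : ZH S q L E φb hφ, F (ψ, Multiplicative.ofAdd κ) := by
  let e : (phx G hφ hT).Z ≃ AddChar (AN G.Pi) ℂ × ZH S q L E φb hφ :=
    (Equiv.prodCongr (Equiv.refl _) Multiplicative.toAdd :
      AddChar (AN G.Pi) ℂ × Multiplicative (ZH S q L E φb hφ) ≃
        AddChar (AN G.Pi) ℂ × ZH S q L E φb hφ)
  have h1 : ∑ z : (phx G hφ hT).Z, F z =
      ∑ z : AddChar (AN G.Pi) ℂ × ZH S q L E φb hφ, F (z.1, Multiplicative.ofAdd z.2) :=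
    Fintype.sum_equiv e _ _ fun z => rfl
  rw [h1, Fintype.sum_prod_type]

/-- the local data without words -/
def wf0 (L : LDs D QBar) (Fr : FR L) : WF A := ⟨L, Fr, ∅, [], fun _ => 1, fun _ => 1⟩

theorem mem_bla {B : SD D Q A} {v : Pl K} {j : Pl K ⊕ Fin A.g} (h : j ∈ blA B v)
    {E : Finset (Pl K)} (hv : v ∈ BB D E) : (∃ w ∈ E, j = Sum.inl w) ∨ ∃ i, j = Sum.inr i := by
  unfold blA at h
  by_cases h0 : v ∈ D.S0
  · rw [if_pos h0] at h
    obtain ⟨i, -, rfl⟩ := List.mem_map.1 h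
    exact Or.inr ⟨i, rfl⟩
  · rw [if_neg h0, List.mem_singleton] at h
    refine Or.inl ⟨v, ?_, h⟩
    exact (Finset.mem_union.1 hv).resolve_left h0

theorem q1_w [Fintype S] (G : SG c S) (B : SD D Q A) (L : LDs D QBar) (Fr : FR L)
    (φb φ' : Gal(QBar/K) →* P) (E : Finset (Pl K)) (hE : ∀ v ∈ E, v ∉ D.S0) (sv : Pl K → S)
    (si : Fin A.g → S) (s : Pl K → Gal(QBar/K)) (hs : ∀ v ∈ E, s v = 1) (Zw : Finset (Pl K))
    (l : List (Pl K)) (Wv : Pl K → FW A) (Wi : Fin A.g → FW A) (ψ : AddChar (AN G.Pi) ℂ)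
    (k : Gal(QBar/K) → Du S q 1) :
    Q1 G B (fdx L Fr B φb φ' E sv si) (wfs L Fr s Zw l Wv Wi) ψ k (Sum.elim (cjL L s).t A.a)
        (Sum.elim (cjF Fr s).F B.b) =
      Q1 G B (fdx L Fr B φb φ' E sv si) (wf0 L Fr) ψ k (Sum.elim L.t A.a)
        (Sum.elim Fr.F B.b) := by
  have hx : ∀ u : J0 (fdx L Fr B φb φ' E sv si) → S,
      x0 B (fdx L Fr B φb φ' E sv si) (wfs L Fr s Zw l Wv Wi) u =
        x0 B (fdx L Fr B φb φ' E sv si) (wf0 L Fr) u := by
    intro u
    funext j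
    unfold x0
    by_cases h : j ∈ J0 (fdx L Fr B φb φ' E sv si)
    · rw [dif_pos h, dif_pos h]
      rcases j with v | i
      · have hv : v ∈ E := by
          unfold H73.S3.J0 at h
          exact Finset.inl_mem_disjSum.1 h
        show il _ * SemidirectProduct.inr (φb ((cjF Fr s).F v)) = il _ *
          SemidirectProduct.inr (φb (Fr.F v))
        rw [cj_F1 Fr s (hs v hv)]
      · rfl
    · rw [dif_neg h, dif_neg h]
  have ht : ∀ v ∈ BB D E, ∀ j ∈ blA B v,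
      t0 (fdx L Fr B φb φ' E sv si) (wfs L Fr s Zw l Wv Wi) j =
        t0 (fdx L Fr B φb φ' E sv si) (wf0 L Fr) j := by
    intro v hv j hj
    rcases mem_bla hj hv with ⟨w, hw, rfl⟩ | ⟨i, rfl⟩
    · show (⟨sv w, φb ((cjL L s).t w)⟩ : SP S P) = ⟨sv w, φb (L.t w)⟩
      rw [cj_t1 L s (hs w hw)]
    · rfl
  have had : ∀ v ∈ BB D E, ∀ j ∈ blA B v,
      (MonoidHom.id Gal(QBar/K)) (Sum.elim (cjL L s).t A.a j) =
        (MonoidHom.id Gal(QBar/K)) (Sum.elim L.t A.a j) ∧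
      (MonoidHom.id Gal(QBar/K)) (Sum.elim (cjF Fr s).F B.b j) =
        (MonoidHom.id Gal(QBar/K)) (Sum.elim Fr.F B.b j) := by
    intro v hv j hj
    rcases mem_bla hj hv with ⟨w, hw, rfl⟩ | ⟨i, rfl⟩
    · exact ⟨cj_t1 L s (hs w hw), cj_F1 Fr s (hs w hw)⟩
    · exact ⟨rfl, rfl⟩
  have hJ : ∀ j : J0 (fdx L Fr B φb φ' E sv si),
      Sum.elim id B.pl j.1 ∈ BB D E ∧ j.1 ∈ blA B (Sum.elim id B.pl j.1) := by
    rintro ⟨v | i, hj⟩
    · have hv : v ∈ E := by
        unfold H73.S3.J0 at hj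
        exact Finset.inl_mem_disjSum.1 hj
      refine ⟨Finset.mem_union_right _ hv, ?_⟩
      show Sum.inl v ∈ blA B v
      unfold blA
      rw [if_neg (hE v hv)]
      exact List.mem_singleton_self _
    · refine ⟨Finset.mem_union_left _ (B.mem i), ?_⟩
      show Sum.inr i ∈ blA B (B.pl i)
      unfold blA
      rw [if_pos (B.mem i)]
      exact List.mem_map.2 ⟨i, List.mem_filter.2 ⟨List.mem_finRange i, decide_eq_true rfl⟩, rfl⟩
  unfold Q1
  congr 1
  refine Finset.sum_congr rfl fun u _ => ?_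
  have hG : G0 G B (fdx L Fr B φb φ' E sv si) (wfs L Fr s Zw l Wv Wi) u ↔
      G0 G B (fdx L Fr B φb φ' E sv si) (wf0 L Fr) u := by
    unfold G0
    rw [hx u]
  have hb : b1 G B (fdx L Fr B φb φ' E sv si) (wfs L Fr s Zw l Wv Wi) ψ k
        (Sum.elim (cjL L s).t A.a) (Sum.elim (cjF Fr s).F B.b) u =
      b1 G B (fdx L Fr B φb φ' E sv si) (wf0 L Fr) ψ k (Sum.elim L.t A.a)
        (Sum.elim Fr.F B.b) u := by
    unfold b1
    rw [hx u]
    have e1 : ∀ v ∈ BB D (fdx L Fr B φb φ' E sv si).E,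
        nk G.Pi (wd (t0 (fdx L Fr B φb φ' E sv si) (wfs L Fr s Zw l Wv Wi))
          (x0 B (fdx L Fr B φb φ' E sv si) (wf0 L Fr) u) (blA B v)).left =
        nk G.Pi (wd (t0 (fdx L Fr B φb φ' E sv si) (wf0 L Fr))
          (x0 B (fdx L Fr B φb φ' E sv si) (wf0 L Fr) u) (blA B v)).left := by
      intro v hv
      rw [H71.S3.wd_congr fun j hj => ⟨ht v hv j hj, rfl⟩]
    rw [Finset.sum_congr rfl e1]
    have e2 : ∀ j : J0 (fdx L Fr B φb φ' E sv si),
        zet' k (Sum.elim (cjL L s).t A.a) (Sum.elim (cjF Fr s).F B.b)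
          (blA B (Sum.elim id B.pl j.1)) j.1 =
        zet' k (Sum.elim L.t A.a) (Sum.elim Fr.F B.b) (blA B (Sum.elim id B.pl j.1)) j.1 :=
      fun j => zet_tr (f := MonoidHom.id _) (f' := MonoidHom.id _) k (had _ (hJ j).1) (hJ j).2
    have e3 : ∀ j : J0 (fdx L Fr B φb φ' E sv si),
        zeta k (Sum.elim (cjL L s).t A.a) (Sum.elim (cjF Fr s).F B.b)
          (blA B (Sum.elim id B.pl j.1)) j.1 =
        zeta k (Sum.elim L.t A.a) (Sum.elim Fr.F B.b) (blA B (Sum.elim id B.pl j.1)) j.1 :=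
      fun j => zeta_tr (f := MonoidHom.id _) (f' := MonoidHom.id _) k (had _ (hJ j).1) (hJ j).2
    have e4 : ∀ j : J0 (fdx L Fr B φb φ' E sv si),
        (t0 (fdx L Fr B φb φ' E sv si) (wfs L Fr s Zw l Wv Wi) j.1).left =
          (t0 (fdx L Fr B φb φ' E sv si) (wf0 L Fr) j.1).left := fun j => by
      rw [ht _ (hJ j).1 j.1 (hJ j).2]
    simp only [e2, e3, e4]
  rw [hb]
  by_cases h : G0 G B (fdx L Fr B φb φ' E sv si) (wf0 L Fr) u
  · rw [if_pos h, if_pos (hG.2 h)]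
  · rw [if_neg h, if_neg fun h' => h (hG.1 h')]

/-- the trivial character -/
theorem bx_one [NeZero q] (G : SG c S) (B : SD D Q A) (L : LDs D QBar) (Fr : FR L)
    (φb : Gal(QBar/K) →* P) (E : Finset (Pl K)) (sv : Pl K → S)
    (si : Fin A.g → S) (hsv : ∀ v, sv v = 1) (hsi : ∀ i, si i = 1) (hφ : Unz L E φb)
    (a d : Pl K ⊕ Fin A.g → Gal(QBar/K)) :
    ∃ u : {u : J0 (fdx L Fr B φb φb E sv si) → S // G0 G B (fdx L Fr B φb φb E sv si) (wf0 L Fr) u},
      bx (q := q) G B (fdx L Fr B φb φb E sv si) (wf0 L Fr) hφ a d u = 1 := by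
  have hil : (il (1 : S) : SP S P) = 1 := map_one _
  have hx : ∀ j, x0 B (fdx L Fr B φb φb E sv si) (wf0 L Fr) (fun _ => 1) j =
      SemidirectProduct.inr (x0 B (fdx L Fr B φb φb E sv si) (wf0 L Fr) (fun _ => 1) j).right := by
    intro j
    unfold x0
    split_ifs with h
    · rw [hil, one_mul, SemidirectProduct.right_inr]
    · rw [SemidirectProduct.one_right, map_one]
  have ht : ∀ j, t0 (fdx L Fr B φb φb E sv si) (wf0 L Fr) j =
      SemidirectProduct.inr (t0 (fdx L Fr B φb φb E sv si) (wf0 L Fr) j).right := by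
    rintro (v | i)
    · exact SemidirectProduct.ext (hsv v) rfl
    · exact SemidirectProduct.ext (hsi i) rfl
  have hw : ∀ v, (wd (t0 (fdx L Fr B φb φb E sv si) (wf0 L Fr))
      (x0 B (fdx L Fr B φb φb E sv si) (wf0 L Fr) (fun _ => 1)) (blA B v)).left = 1 := by
    intro v
    rw [funext ht, funext hx, ← H71.S3.wd_map, SemidirectProduct.left_inr]
  have hG : G0 G B (fdx L Fr B φb φb E sv si) (wf0 L Fr) (fun _ => 1) := by
    refine ⟨fun v hv => ?_, fun i => ?_⟩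
    · have hj : (Sum.inl v : Pl K ⊕ Fin A.g) ∈ H73.S3.J0 (fdx L Fr B φb φb E sv si) := by
        unfold H73.S3.J0
        exact Finset.inl_mem_disjSum.2 hv
      unfold x0
      rw [dif_pos hj, hil, one_mul, SG.Pi_mk]
      show G.pi 1 * φb (Fr.F v) = φb (Fr.F v)
      rw [map_one, one_mul]
    · have hj : (Sum.inr i : Pl K ⊕ Fin A.g) ∈ H73.S3.J0 (fdx L Fr B φb φb E sv si) := by
        unfold H73.S3.J0
        exact Finset.inr_mem_disjSum.2 (Finset.mem_univ i)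
      unfold x0
      rw [dif_pos hj, hil, one_mul, SG.Pi_mk]
      show G.pi 1 * φb (B.b i) = φb (B.b i)
      rw [map_one, one_mul]
  refine ⟨⟨fun _ => 1, hG⟩, MonoidHom.ext fun z => ?_⟩
  show b1 G B (fdx L Fr B φb φb E sv si) (wf0 L Fr) z.1 (Multiplicative.toAdd z.2).1 a d
    (fun _ => 1) = 1
  unfold b1
  have e1 : ∀ v ∈ BB D (fdx L Fr B φb φb E sv si).E,
      nk G.Pi (wd (t0 (fdx L Fr B φb φb E sv si) (wf0 L Fr))
        (x0 B (fdx L Fr B φb φb E sv si) (wf0 L Fr) (fun _ => 1)) (blA B v)).left = 0 := by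
    intro v _
    rw [hw v, nk_one]
  have e2 : ∀ j : H73.S3.J0 (fdx L Fr B φb φb E sv si),
      gk 1 (t0 (fdx L Fr B φb φb E sv si) (wf0 L Fr) j.1).left = 0 := fun j => by
    rw [ht j.1, SemidirectProduct.left_inr, gk_one]
  rw [Finset.sum_congr rfl e1]
  simp only [e2, gk_one, map_zero, Finset.sum_const_zero, neg_zero, sub_zero, ep_zero, mul_one]
  exact AddChar.map_zero_eq_one _

end H12.FB
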