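import Pool.Agent.H12.FB.Ngb
import Pool.Agent.H12.FB.Onp
import Pool.Agent.H71.S3.Oc

/-!
# [H12 FB ONE] the first stage (MP_b39724_nt, stage 3, assembly of chapter B)

`One1`: `Mm 1` is the main term of `EQ1s` up to a negligible error, for all good places and all words. `one`: it holds for all groups of bounded order if `k` and the order of `z` are large
(`one_adf`, `main_eq`, the phases `phx`, `ngb`).
-/

set_option autoImplicit false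

open scoped NumberField commutatorElement
open IsDedekindDomain Filter Topology
open scoped Classical

noncomputable section

namespace H12.FB

open H38.ML H63.MA H38.BB H38.BG H57.PC H57.BRA H77.WD H77.WE H77.GL H77.PC3 H35.CF H35.UB H77.S3
  H71.S3 H1.S3 H73.S3 H24.RK H12.S3 H51.F3 H51.PF H93.BX H93.BY H38.AS H77.S0T H77.FLD H77.PLF H35.AC

attribute [local instance 50] Fintype.ofFinite

/-- the main term -/
theorem pkc {K : IntermediateField ℚ QBar} [NumberField K] {p N : ℕ} {ζ : K} {D : RD0 K p ζ}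
    {P : Type} [Group P] {c : CL p N P} {S : Type} [Group S] [MulDistribMulAction P S]
    {Q : DP K QBar} {A : GS D QBar} [Fintype S] [Fintype P] {q : ℕ} [NeZero q] (hp : p.Prime)
    (hζ : IsPrimitiveRoot ζ p) (G : SG c S) (hT : Tg G = Tc c) (B : SD D Q A) (L : LDs D QBar)
    (Fr : FR L) (φb φ' : Gal(QBar/K) →* P) (E : Finset (Pl K)) (hφ : Unz L E φb)
    [Finite (ZH S q L E φb hφ)] (sv : Pl K → S) (si : Fin A.g → S)
    (s : Pl K → Gal(QBar/K)) (hs : ∀ v ∈ E, s v = 1) (Zw : Finset (Pl K)) (l : List (Pl K))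
    (Wv : Pl K → FW A) (Wi : Fin A.g → FW A) {k Mw c₀ : ℕ} {T : ℝ} {Zc : Finset (Pl K)}
    (hN : NgOk G B (fdx L Fr B φb φ' E sv si) (wfs L Fr s Zw l Wv Wi) k Mw q c₀ T Zc)
    (hD : Sml p k Mw (Sd P (Du S q 1))) (wt : (Pl K → Option (Px c)) → ℂ) :
    ∑ z : (phx G hφ hT).Z, (∑ u : {u : H73.S3.J0 (fdx L Fr B φb φ' E sv si) → S //
        G0 G B (fdx L Fr B φb φ' E sv si) (wf0 L Fr) u},
        bx G B (fdx L Fr B φb φ' E sv si) (wf0 L Fr) hφ (Sum.elim L.t A.a) (Sum.elim Fr.F B.b)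
          u z) * ∑ f ∈ Cf Zc (Px c), wt f *
        om Zc (fun v x => (phx G hφ hT).w z x (gf S q hφ ((cjF Fr s).F v))) f =
      (Fintype.card S : ℂ) ^ (H73.S3.J0 (fdx L Fr B φb φ' E sv si)).card *
        MN q G B (fdx L Fr B φb φ' E sv si) (wfs L Fr s Zw l Wv Wi) Zc wt := by
  have hφ' : Unz (cjL L s) E φb := (unz_cj L s E φb).2 hφ
  have hfin' : Finite (ZH S q (cjL L s) E φb hφ') := Finite.of_equiv _ (zh_eqv L s hφ hφ').symm
  let hft : Fintype (ZH S q (wfs L Fr s Zw l Wv Wi).L (fdx L Fr B φb φ' E sv si).E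
      (fdx L Fr B φb φ' E sv si).φ hN.okX.unz) := @Fintype.ofFinite _ hfin'
  have e1 := main_eq (q := q) hp hζ G B (fdx L Fr B φb φ' E sv si) (wfs L Fr s Zw l Wv Wi) hN.okX
    hN.okW hD Zc hN.ze hN.zc hN.ez wt
  rw [e1, phx_sum, Finset.mul_sum]
  refine Finset.sum_congr rfl fun ψ _ => ?_
  rw [Finset.mul_sum]
  symm
  refine Fintype.sum_equiv (zh_eqv L s hφ hφ') _ _ fun κ => ?_
  rw [bx_sum, mul_assoc]
  refine congrArg _ ?_
  have e2 := q1_w G B L Fr φb φ' E hN.okX.es sv si s hs Zw l Wv Wi ψ κ.1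
  refine congrArg₂ _ ?_ ?_
  · exact e2
  · refine Finset.sum_congr rfl fun f _ => congrArg _ ?_
    refine congrArg (fun g => om Zc g f) (funext fun v => funext fun x => ?_)
    exact (phx_w G hφ hT ψ (zh_eqv L s hφ hφ' κ) x ((cjF Fr s).F v)).symm

/-- the first stage for one fibre and one type -/
def One1 {K : IntermediateField ℚ QBar} [NumberField K] {p N : ℕ} {ζ : K} {D : RD0 K p ζ}
    {P : Type} [Group P] {c : CL p N P} {S : Type} [Group S] [MulDistribMulAction P S]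
    {Q : DP K QBar} {A : GS D QBar} [Fintype S] [Fintype P] (G : SG c S) {L : LDs D QBar}
    (Fr : FR L) (B : SD D Q A) (φb φ' : Gal(QBar/K) →* P) (E : Finset (Pl K)) (sv : Pl K → S)
    (si : Fin A.g → S) (k j : ℕ) (z : K) (κ₁ : ℕ) : Prop :=
  ∃ (G' : Type) (_ : Group G') (_ : Fintype G') (r : G' →* P) (φG : Gal(QBar/K) →* G') (H : Phs c r)
    (Yv : Type) (_ : Fintype Yv) (b : Yv → H.Z →* ℂ) (κ : ℝ) (M₁ : ℕ),
    (∀ g : G', g ^ p ^ κ₁ = 1) ∧ Function.Surjective φG ∧ r.comp φG = φb ∧ Unz L E φG ∧ 0 < κ ∧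
    (φ' = φb → ∃ y, b y = 1) ∧
    ∀ M : ℕ, M₁ ≤ M → ∀ ε : ℝ, 0 < ε → ε < 1 → ∀ A₁ : ℕ, ∃ C₁ C₀ : ℝ, 3 ≤ C₁ ∧
      ∀ C₂ : ℝ, C₁ ≤ C₂ → Gpl p Fr E fun Y s =>
        ∀ (Zw : Finset (Pl K)) (l : List (Pl K)) (Wv : Pl K → FW A) (Wi : Fin A.g → FW A),
          Wq B E k j z C₂ Y (wfs L Fr s Zw l Wv Wi) → ∀ ψ : ℝ → ℝ, Cut ψ →
          ‖Mm G B (fdx L Fr B φb φ' E sv si) (wfs L Fr s Zw l Wv Wi) (T0 ε Y) (H35.UB.Zg D Zw E)
              (wR (fdx L Fr B φb φ' E sv si) (wfs L Fr s Zw l Wv Wi) (T0 ε Y)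
                (H35.UB.Zg D Zw E) M ψ Y) 1 -
            (κ : ℂ) * ∑ z : H.Z, (∑ y, b y z) * ∑ f ∈ Cf (H35.UB.Zg D Zw E) (Px c),
              (if Rcl c (cjF Fr s) φb M (T0 ε Y) (H35.UB.Zg D Zw E) f then
                (ψ (nr (sp (H35.UB.Zg D Zw E) f) / Y) : ℂ) else 0) *
                om (H35.UB.Zg D Zw E) (fun v x => H.w z x (φG ((cjF Fr s).F v))) f‖ ≤
            C₀ * (Y * Real.log Y ^ (-(A₁ : ℝ)))

theorem one (p : ℕ) (hp : p.Prime) (κ c₀ mm : ℕ) : ∃ k₀ κ₁ : ℕ, ∀ k : ℕ, k₀ ≤ k → ∃ n₀ : ℕ,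
    ∀ n : ℕ, n₀ ≤ n → ∀ (P S : Type) [Group P] [Fintype P] [Group S] [Fintype S]
      [MulDistribMulAction P S], Siz p κ c₀ mm k P S →
    ∀ (N : ℕ) (c : CL p N P) (_ : 1 ≤ N) (G : SG c S)
      (K : IntermediateField ℚ QBar) [NumberField K] (ζ : K) (_ : IsPrimitiveRoot ζ p) (z : K)
      (_ : IsPrimitiveRoot z (p ^ (n + 1))) (_ : z ^ p ^ n = ζ) (D : RD K p ζ)
      (Q : DP K QBar) (A : GS D.toRD0 QBar) (B : SD D.toRD0 Q A) (_ : SGn p B)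
      (L : LDs D.toRD0 QBar) (_ : NL (n + 1) z L) (Fr : FR L) (_ : LQ L Q)
      (φb φ' : Gal(QBar/K) →* P) (E : Finset (Pl K)) (_ : Fib L c φb φ' E)
      (sv : Pl K → S) (si : Fin A.g → S) (_ : Svi G L A φb φ' E sv si),
      One1 G Fr B φb φ' E sv si k (n + 1) z κ₁ := by
  obtain ⟨k₀, hk⟩ := ngb p hp κ c₀ mm
  refine ⟨k₀, mm, fun k hk0 => ?_⟩
  obtain ⟨n₀, hn⟩ := hk k hk0
  refine ⟨n₀, fun n hn0 P S _ _ _ _ _ hZ N c hN G K _ ζ hζ z hz hzζ D Q A B hSg L hL Fr hQ φb φ' E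
    hF sv si hsv => ?_⟩
  have hne : NeZero (p ^ κ) := ⟨(pow_pos hp.pos _).ne'⟩
  have hφ : Unz L E φb := ⟨hF.ft, fun v h0 hE => hF.un v h0 hE⟩
  have hT := tg_eq G
  have hcd : Nat.card (Sd P (Du S (p ^ κ) 1)) ≤ mm := by
    rw [sd_card]
    exact (Nat.mul_le_mul le_rfl card_du).trans hZ.h2
  have hcP : Nat.card P ≤ mm := by
    refine le_trans ?_ hcd
    rw [sd_card]
    exact Nat.le_mul_of_pos_right _ Nat.card_pos
  have hSdP : IsPGroup p (Sd P (Du S (p ^ κ) 1)) := sd_pg (r := κ) hZ.pP fun m => du_q m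
  have hmk : mm ≤ p ^ k := (mx_le mm).trans hZ.h4
  have hD : Sml p k (p ^ k) (Sd P (Du S (p ^ κ) 1)) := sml_of hp le_rfl hSdP (hcd.trans hmk)
  have hfin : Finite (ZH S (p ^ κ) L E φb hφ) := zh_fin hφ hp hζ A hSdP
  obtain ⟨M₁, hM⟩ := hn n hn0 P S hZ N c hN G K ζ hζ z hz hzζ D Q A B hSg L hL Fr hQ φb φ' E hF sv
    si hsv hne
  obtain ⟨γ, hγ⟩ : ∃ γ : ℝ, γ = (Nat.card (gm S 2) : ℝ) / (Nat.card (Nk G.Pi) : ℝ) := ⟨_, rfl⟩
  have hγp : 0 < γ := by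
    rw [hγ]
    refine div_pos ?_ ?_
    · exact_mod_cast Nat.card_pos
    · exact_mod_cast Nat.card_pos
  obtain ⟨J, hJ⟩ : ∃ J : ℕ, J = (H73.S3.J0 (fdx L Fr B φb φ' E sv si)).card := ⟨_, rfl⟩
  have hSp : (0 : ℝ) < (Fintype.card S : ℝ) := by exact_mod_cast Fintype.card_pos
  refine ⟨Gf S (p ^ κ) hφ, inferInstance, Fintype.ofFinite _, rf S (p ^ κ) hφ, gf S (p ^ κ) hφ,
    phx G hφ hT, {u : H73.S3.J0 (fdx L Fr B φb φ' E sv si) → S //
        G0 G B (fdx L Fr B φb φ' E sv si) (wf0 L Fr) u}, inferInstance,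
    fun u => bx G B (fdx L Fr B φb φ' E sv si) (wf0 L Fr) hφ (Sum.elim L.t A.a)
      (Sum.elim Fr.F B.b) u, γ / (Fintype.card S : ℝ) ^ J, max M₁ 1,
    fun g => gf_exp hφ hp hZ.pP hSdP hcd hcP g, gf_surj hφ, rf_gf hφ, gf_unz hφ,
    div_pos hγp (pow_pos hSp _), fun h => ?_, fun M hM1 ε hε hε1 A₁ => ?_⟩
  · subst h
    exact bx_one G B L Fr _ E sv si (hsv.h1 rfl).1 (hsv.h1 rfl).2 hφ _ _
  · obtain ⟨C₁, C₀, hC, h⟩ := hM M ((le_max_left _ _).trans hM1) ε hε hε1 A₁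
    obtain ⟨Y₁, hY₁⟩ := stg_ev E hε
    refine ⟨C₁, γ * C₀, hC, fun C₂ hC₂ => H12.S3.Q.gpl_ge (H12.S3.Q.gpl_and (h C₂ hC₂)
      (⟨0, 0, fun _ => ⟨0, fun _ _ _ hs _ => hs⟩⟩ : Gpl p Fr E fun _ s => ∀ v ∈ E, s v = 1)) Y₁
      fun Y hY s hR Zw l Wv Wi hW ψ hψ => ?_⟩
    obtain ⟨hR1, hs⟩ := hR
    obtain ⟨hY3, hYE, hYl⟩ := hY₁ Y hY
    have hNg := ngx hp hZ G (Fr := Fr) B hF hsv hYE hs hW
    have e0 := hR1 Zw l Wv Wi hW ψ hψ
    have hPs : Sml p k (p ^ k) P := ⟨hZ.pP, hZ.cP hp, hZ.eP hp⟩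
    have e1 := one_adf (q := p ^ κ) (c₀ := c₀) hp G B (fdx L Fr B φb φ' E sv si)
      (wfs L Fr s Zw l Wv Wi) hNg.okX hNg.okW hPs (T0 ε Y) (H35.UB.Zg D.toRD0 Zw E) hNg.ze hNg.zc
      hNg.ez (wR (fdx L Fr B φb φ' E sv si) (wfs L Fr s Zw l Wv Wi) (T0 ε Y)
                (H35.UB.Zg D.toRD0 Zw E) M ψ Y) (fun f hf hw => by
        have hr : Rich (fdx L Fr B φb φ' E sv si) (wfs L Fr s Zw l Wv Wi) (T0 ε Y)
            (H35.UB.Zg D.toRD0 Zw E) M f := by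
          by_contra hc
          exact hw (if_neg hc)
        exact adf_ok hp G B _ _ hNg.okX hNg.okW _ _ hNg.ze hNg.zc hNg.ez f
          (fun x => le_trans ((le_max_right _ _).trans hM1) (hr x)) hNg.pP hNg.pS hNg.nil hNg.qe
          hNg.kM hNg.mx hNg.qp)
    have e2 := pkc hp hζ G hT B L Fr φb φ' E hφ sv si s hs Zw l Wv Wi hNg hD
      (wR (fdx L Fr B φb φ' E sv si) (wfs L Fr s Zw l Wv Wi) (T0 ε Y)
                (H35.UB.Zg D.toRD0 Zw E) M ψ Y)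
    have e3 : ∀ f : Pl K → Option (Px c),
        (if Rcl c (cjF Fr s) φb M (T0 ε Y) (H35.UB.Zg D.toRD0 Zw E) f then
          (ψ (nr (sp (H35.UB.Zg D.toRD0 Zw E) f) / Y) : ℂ) else 0) =
        wR (fdx L Fr B φb φ' E sv si) (wfs L Fr s Zw l Wv Wi) (T0 ε Y)
                (H35.UB.Zg D.toRD0 Zw E) M ψ Y f := by
      intro f
      unfold wR
      refine if_congr ?_ rfl rfl
      exact (rcl_rich L Fr B φb φ' E sv si s Zw l Wv Wi (T0 ε Y) (H35.UB.Zg D.toRD0 Zw E) M f).symm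
    simp only [e3]
    rw [e1]
    erw [e2]
    rw [← hJ]
    have hγc : (Nat.card (gm S 2) : ℂ) / (Nat.card (Nk G.Pi) : ℂ) = (γ : ℂ) := by
      rw [hγ]
      push_cast
      rfl
    have hSc : ((Fintype.card S : ℂ)) ^ J ≠ 0 := pow_ne_zero _ (by exact_mod_cast hSp.ne')
    rw [hγc]
    have e4 : ∀ x y : ℂ, (γ : ℂ) * (x + y) - ((γ / (Fintype.card S : ℝ) ^ J : ℝ) : ℂ) *
        ((Fintype.card S : ℂ) ^ J * x) = (γ : ℂ) * y := by
      intro x y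
      push_cast
      field_simp
      ring
    rw [e4, norm_mul, Complex.norm_real, Real.norm_of_nonneg hγp.le, mul_assoc]
    exact mul_le_mul_of_nonneg_left e0 hγp.le

end H12.FB
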