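import Pool.Agent.H12.FB.Stg
import Pool.Agent.H82.S3.Fre

/-!
# [H12 FB PAR] uniform parameters (MP_b39724_nt, stage 3, assembly of chapter B)

`par`: for a finite `p`-group `P` there are `κ`, `c₀`, `mm`, `k₀` such that for all `c` with `C4 c` there is a group `S` with `SG c S`, `Siz`, `Fre`.
PROOF. `card P = p ^ r`. `p = 2`: `cc = 3` (`C4`: `gam (TL c) 3 = ⊥`, since `TL c = Tc c` by `tl_eq` and `gam` is the lower central series); `p` odd: `cc ≥ 1` with `gam T cc = ⊥` for all subgroups `T` of `P` (class of `P`).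
`Pa := H82.S3.mkPar p hp cc _ r` does not depend on `c` (`mkPar_top`), `S := Sp Pa (Px c)`, `G` from `sg_exists`; `Tg G = TL c = Tc c` (`G.pi` maps the generators to the labels, `sy_gen`). `c₀ := cc`.
`card (Sp Pa (Px c))` is bounded for all `c`: `Px c` is the subtype of `U := {x | ∃ i, IsConj x (c.g i)} : Set P`, take the maximum over all `U : Set P`. `κ`: a power `p ^ κ` which kills all these groups, `Pa.M 1 ≤ κ`, `1 ≤ κ`.
`Fre` from `H82.S3.fre` (`hG`, `hT` from `sg_exists`). `k₀` with `p ^ k₀` larger than all the bounds.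
-/

set_option autoImplicit false

open scoped NumberField commutatorElement
open IsDedekindDomain Filter Topology
open scoped Classical

noncomputable section

namespace H12.FB

open H77.PC3 H35.UB H77.S3 H71.S3 H1.S3 H73.S3 H12.S3 H51.F3

attribute [local instance 50] Fintype.ofFinite

private theorem lcs_sub {P : Type} [Group P] (H : Subgroup P) (n : ℕ)
    (h : Subgroup.lowerCentralSeries H n = ⊥) : Pool.Agent.H61.Tu.gam H n = ⊥ := by
  have h1 := Subgroup.top_subtype_lowerCentralSeries H n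
  rw [h] at h1
  exact (Subgroup.map_eq_bot_iff_of_injective _ H.subtype_injective).1 h1

/-- the class for `par` -/
private theorem cls_ex (p : ℕ) (P : Type) [Group P] [Fintype P] (hp : p.Prime)
    (hP : IsPGroup p P) : ∃ cc : ℕ, 1 ≤ cc ∧ (p ≠ 2 ∨ cc = 3) ∧
      ∀ (N : ℕ) (c : CL p N P), C4 c → Subgroup.lowerCentralSeries (Tc c) cc = ⊥ := by
  by_cases h2 : p = 2
  · refine ⟨3, by omega, Or.inr rfl, fun N c hc => ?_⟩
    rcases hc with hc | hc
    · exact absurd h2 hc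
    · exact hc
  · have : Fact p.Prime := ⟨hp⟩
    have h2' : Group.IsNilpotent P := hP.isNilpotent
    obtain ⟨n, hn⟩ := Subgroup.nilpotent_iff_lowerCentralSeries.1 h2'
    refine ⟨n + 1, by omega, Or.inl h2, fun N c _ => ?_⟩
    rw [eq_bot_iff]
    calc Subgroup.lowerCentralSeries (Tc c) (n + 1)
        ≤ Subgroup.lowerCentralSeries (⊤ : Subgroup P) (n + 1) :=
          Subgroup.lowerCentralSeries_mono (n + 1) le_top
      _ ≤ Subgroup.lowerCentralSeries (⊤ : Subgroup P) n :=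
          Subgroup.lowerCentralSeries_antitone _ (Nat.le_succ n)
      _ ≤ ⊥ := hn.le

private theorem tg_eq {p N : ℕ} {P : Type} [Group P] {c : CL p N P} (Pa : H82.S3.Par)
    (G : SG c (H82.S3.Sp Pa (Px c))) (hG : ∀ x, G.y x = H82.S3.sy Pa x)
    (hT : ∀ u, G.pi u ∈ H82.S3.TL c) : Tg G = Tc c := by
  have h1 : Tg G = H82.S3.TL c := by
    apply le_antisymm
    · rintro _ ⟨u, rfl⟩
      exact hT u
    · unfold H82.S3.TL
      rw [Subgroup.closure_le]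
      rintro _ ⟨x, rfl⟩
      exact ⟨G.y x, G.pi_y x⟩
  rw [h1]
  exact H82.S3.tl_eq

theorem par (p : ℕ) (hp : p.Prime) (P : Type) [Group P] [Fintype P] (hP : IsPGroup p P) :
    ∃ κ c₀ mm k₀ : ℕ, ∀ (N : ℕ) (c : CL p N P), C4 c →
      ∃ (S : Type) (_ : Group S) (_ : Fintype S) (_ : MulDistribMulAction P S) (G : SG c S),
        Tg G = Tc c ∧ (∀ k : ℕ, k₀ ≤ k → Siz p κ c₀ mm k P S) ∧
        ∀ m, 1 ≤ m → m + 1 ≤ c₀ → Fre G (p ^ κ) m := by
  have : Fact p.Prime := ⟨hp⟩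
  obtain ⟨r, hr⟩ := IsPGroup.iff_card.1 hP
  have hexp : ∀ t : P, t ^ (p ^ r) = 1 := fun t => by rw [← hr]; exact pow_card_eq_one'
  obtain ⟨cc, hc1, hc2, hc3⟩ := cls_ex p P hp hP
  obtain ⟨Pa, hPa⟩ : ∃ Pa : H82.S3.Par, Pa = H82.S3.mkPar p hp cc hc1 r := ⟨_, rfl⟩
  have hPp : Pa.p = p := by rw [hPa]; rfl
  have hPc : Pa.c = cc := by rw [hPa]; rfl
  have hPM : Pa.M Pa.c = r := by rw [hPa]; exact H82.S3.mkPar_top p hp cc hc1 r
  -- the bound for the orders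
  obtain ⟨C, hC⟩ : ∃ C : ℕ, ∀ U : Set P, Nat.card (H82.S3.Sp Pa {x : P // x ∈ U}) ≤ C := by
    obtain ⟨C, hC⟩ := (Set.finite_range fun U : Set P =>
      Nat.card (H82.S3.Sp Pa {x : P // x ∈ U})).bddAbove
    exact ⟨C, fun U => hC ⟨U, rfl⟩⟩
  have hCc : ∀ (N : ℕ) (c : CL p N P), Nat.card (H82.S3.Sp Pa (Px c)) ≤ C := fun N c =>
    hC {x | ∃ i, IsConj x (c.g i)}
  obtain ⟨κ, hκ⟩ : ∃ κ : ℕ, κ = Pa.M 1 := ⟨_, rfl⟩
  obtain ⟨mm, hmm⟩ : ∃ mm : ℕ, mm = cc + C * (Nat.card P * (p ^ κ) ^ C) +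
    Nat.card P * (p ^ κ) ^ C := ⟨_, rfl⟩
  obtain ⟨k₀, hk₀⟩ : ∃ k₀ : ℕ, k₀ = Nat.card P * C ^ 2 * p ^ κ + H93.BX.Mx (p ^ κ) mm :=
    ⟨_, rfl⟩
  refine ⟨κ, cc, mm, k₀, fun N c hc => ?_⟩
  have hpκ : 0 < p ^ κ := pow_pos hp.pos _
  have hcP : 0 < Nat.card P := Nat.card_pos
  obtain ⟨G, hG1, hG2⟩ := H82.S3.sg_exists (c := c) Pa
    (by
      rw [hPc, H82.S3.tl_eq]
      exact lcs_sub _ _ (hc3 N c hc))
    (fun t _ => by rw [hPp, hPM]; exact hexp t)
  have hfin : Finite (H82.S3.Sp Pa (Px c)) := inferInstance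
  refine ⟨H82.S3.Sp Pa (Px c), inferInstance, Fintype.ofFinite _, inferInstance, G,
    tg_eq Pa G hG1 hG2, fun k hk => ?_, fun m hm hmc => ?_⟩
  · have hS : Nat.card (H82.S3.Sp Pa (Px c)) ≤ C := hCc N c
    have hpow : (p ^ κ) ^ Nat.card (H82.S3.Sp Pa (Px c)) ≤ (p ^ κ) ^ C :=
      Nat.pow_le_pow_right hpκ hS
    have hkk : k ≤ p ^ k := Nat.le_of_lt (Nat.lt_pow_self hp.one_lt)
    refine ⟨hP, ?_, hc1, ?_, fun s => ?_, ?_, ?_, ?_, ?_, ?_⟩
    · have := H82.S3.sp_pgroup Pa (α := Px c)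
      rwa [hPp] at this
    · show Pool.Agent.H61.Tu.gam (H82.S3.Sp Pa (Px c)) (cc + 1 - 1) = ⊥
      rw [Nat.add_sub_cancel, ← hPc]
      exact H82.S3.gam_c Pa
    · have h9 := H82.S3.sp_pow Pa s
      have h10 : Pa.q 0 = p ^ κ := by
        show Pa.p ^ Pa.M 1 = p ^ κ
        rw [hκ, hPp]
      rwa [h10] at h9
    · rw [hmm]; omega
    · calc Nat.card (H82.S3.Sp Pa (Px c)) *
            (Nat.card P * (p ^ κ) ^ Nat.card (H82.S3.Sp Pa (Px c)))
          ≤ C * (Nat.card P * (p ^ κ) ^ C) :=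
            Nat.mul_le_mul hS (Nat.mul_le_mul le_rfl hpow)
        _ ≤ mm := by rw [hmm]; omega
    · calc Nat.card P * (p ^ κ) ^ Nat.card (H82.S3.Sp Pa (Px c)) ≤ Nat.card P * (p ^ κ) ^ C :=
            Nat.mul_le_mul le_rfl hpow
        _ ≤ mm := by rw [hmm]; omega
    · calc Nat.card P * Nat.card (H82.S3.Sp Pa (Px c)) ^ 2 * p ^ κ
          ≤ Nat.card P * C ^ 2 * p ^ κ :=
            Nat.mul_le_mul (Nat.mul_le_mul le_rfl (Nat.pow_le_pow_left hS 2)) le_rfl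
        _ ≤ k₀ := by rw [hk₀]; omega
        _ ≤ k := hk
        _ ≤ p ^ k := hkk
    · calc H93.BX.Mx (p ^ κ) mm ≤ k₀ := by rw [hk₀]; omega
        _ ≤ k := hk
        _ ≤ p ^ k := hkk
  · refine H82.S3.fre Pa G hG1 (fun u => ?_) m hm (by rw [hPc]; exact hmc) (p ^ κ) κ
      (by rw [hPp]) (by rw [hκ]) ?_
    · rw [hPp, hPM]
      exact hexp _
    · rw [hPp]
      rcases hc2 with h | h
      · exact Or.inl h
      · right; omega

end H12.FB
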