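import Pool.Agent.H12.FB.Df
import Pool.Agent.H73.S3.Bxf
import Pool.Agent.H12.S3.Dsq
import Pool.Agent.H12.S3.Fsc

/-!
# [H12 FB STG] all stages (MP_b39724_nt, stage 3, assembly of chapter B)

`Siz`: the bounds for the orders. `stgs`: `Mm c₀ - Mm 1` is negligible for all good places (from `stg`, `bxf`).
-/

set_option autoImplicit false

open scoped NumberField commutatorElement
open IsDedekindDomain Filter Topology
open scoped Classical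

noncomputable section

namespace H12.FB

open H38.ML H63.MA H38.BB H38.BG H57.PC H57.BRA H77.WD H77.WE H77.GL H77.PC3 H35.CF H35.UB H77.S3
  H71.S3 H1.S3 H73.S3 H24.RK H12.S3 H51.F3 H51.PF H93.BX H93.BY

attribute [local instance 50] Fintype.ofFinite

/-- the bounds for the orders; `q = p ^ κ` -/
structure Siz (p κ c₀ mm k : ℕ) (P S : Type) [Group P] [Group S] : Prop where
  pP : IsPGroup p P
  pS : IsPGroup p S
  c1 : 1 ≤ c₀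
  nil : gm S (c₀ + 1) = ⊥
  qe : ∀ s : S, s ^ p ^ κ = 1
  h0 : c₀ ≤ mm
  h1 : Nat.card S * (Nat.card P * (p ^ κ) ^ Nat.card S) ≤ mm
  h2 : Nat.card P * (p ^ κ) ^ Nat.card S ≤ mm
  h3 : Nat.card P * Nat.card S ^ 2 * p ^ κ ≤ p ^ k
  h4 : Mx (p ^ κ) mm ≤ p ^ k

section siz

variable {p κ c₀ mm k : ℕ} {P S : Type} [Group P] [Group S]

theorem Siz.cP [Finite S] (h : Siz p κ c₀ mm k P S) (hp : p.Prime) : Nat.card P ≤ p ^ k := by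
  refine le_trans ?_ h.h3
  have h1 : 0 < Nat.card S := Nat.card_pos
  have h2 : 0 < p ^ κ := pow_pos hp.pos _
  calc Nat.card P = Nat.card P * 1 * 1 := by ring
    _ ≤ Nat.card P * Nat.card S ^ 2 * p ^ κ :=
      Nat.mul_le_mul (Nat.mul_le_mul le_rfl (pow_pos h1 2)) h2

theorem Siz.eP [Finite P] [Finite S] (h : Siz p κ c₀ mm k P S) (hp : p.Prime) (x : P) :
    x ^ p ^ k = 1 := by
  have : Fact p.Prime := ⟨hp⟩
  obtain ⟨r, hr⟩ := IsPGroup.iff_card.1 h.pP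
  have h1 := h.cP hp
  rw [hr] at h1
  have h2 : r ≤ k := (Nat.pow_le_pow_iff_right hp.one_lt).1 h1
  have h3 : x ^ p ^ r = 1 := by
    rw [← hr]
    exact pow_card_eq_one'
  rw [show p ^ k = p ^ r * p ^ (k - r) by rw [← pow_add]; congr 1; omega, pow_mul, h3, one_pow]

end siz

variable {K : IntermediateField ℚ QBar} [NumberField K] {p N : ℕ} {ζ : K} {D : RD0 K p ζ}
  {P : Type} [Group P] {c : CL p N P} {S : Type} [Group S] [MulDistribMulAction P S]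
  {Q : DP K QBar} {A : GS D QBar}

/-- the conditions on `sv`, `si` -/
structure Svi (G : SG c S) (L : LDs D QBar) (A : GS D QBar) (φb φ' : Gal(QBar/K) →* P)
    (E : Finset (Pl K)) (sv : Pl K → S) (si : Fin A.g → S) : Prop where
  hv : ∀ v ∈ E, G.pi (sv v) * φb (L.t v) = φ' (L.t v)
  hi : ∀ i, G.pi (si i) * φb (A.a i) = φ' (A.a i)
  h1 : φ' = φb → (∀ v, sv v = 1) ∧ ∀ i, si i = 1

/-- the hypotheses of the negligible part for large `Y` -/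
theorem ngx [Fintype S] [Fintype P] (hp : p.Prime) {κ c₀ mm k : ℕ} (hZ : Siz p κ c₀ mm k P S)
    (G : SG c S) {L : LDs D QBar} {Fr : FR L} (B : SD D Q A)
    {φb φ' : Gal(QBar/K) →* P} {E : Finset (Pl K)} (hF : Fib L c φb φ' E) {sv : Pl K → S}
    {si : Fin A.g → S} (hsv : Svi G L A φb φ' E sv si) {n : ℕ} {z : K} {C₁ Y T : ℝ}
    (hT : ∀ v ∈ E, (nm v : ℝ) ≤ T)
    {s : Pl K → Gal(QBar/K)} (hs : ∀ v ∈ E, s v = 1) {Zw : Finset (Pl K)}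
    {l : List (Pl K)} {Wv : Pl K → FW A} {Wi : Fin A.g → FW A}
    (hW : Wq B E k n z C₁ Y (wfs L Fr s Zw l Wv Wi)) :
    NgOk G B (fdx L Fr B φb φ' E sv si) (wfs L Fr s Zw l Wv Wi) k (p ^ k) (p ^ κ) c₀ T
      (H35.UB.Zg D Zw E) := by
  have hS : Sml p k (p ^ k) P := ⟨hZ.pP, hZ.cP hp, hZ.eP hp⟩
  refine ⟨⟨fun v hv => (hF.gd v hv).1, ⟨hF.ft, fun v h0 hE => ?_⟩, fun v hv => ?_, hsv.hi, ?_, ?_⟩,
    hW.ok, hW.srt, ?_, hW.ez, ?_, hT, hZ.pP, hZ.pS, hZ.nil, hZ.qe, le_rfl, hZ.h3, ⟨κ, rfl⟩⟩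
  · exact (cj_ne L s h0 φb).2 (hF.un v h0 hE)
  · change G.pi (sv v) * φb ((cjL L s).t v) = φ' (L.t v)
    rw [cj_t1 L s (hs v hv)]
    exact hsv.hv v hv
  · intro v hv
    exact hW.ok.s0 v hv P hS φ' hF.ft'
  · intro v hv
    have h1 := hW.ok.cm v (hF.gd v hv).1 P hS φ' hF.ft'
    change φ' ((cjF Fr s).F v) * φ' ((cjL L s).t v) = φ' ((cjL L s).t v) * φ' ((cjF Fr s).F v)
      at h1
    rw [cj_t1 L s (hs v hv), cj_F1 Fr s (hs v hv)] at h1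
    change ⁅φ' (L.t v), φ' (Fr.F v)⁆ = 1
    rw [commutatorElement_eq_one_iff_mul_comm]
    exact h1.symm
  · intro v hv
    unfold H35.UB.Zg at hv
    rw [Finset.mem_filter, Finset.mem_sdiff] at hv
    exact hv.1.1
  · rw [Finset.disjoint_left]
    intro v hv hE
    unfold H35.UB.Zg at hv
    rw [Finset.mem_filter, Finset.mem_sdiff] at hv
    exact hv.1.2 hE

theorem card_du [Finite S] {q m : ℕ} [NeZero q] : Nat.card (Du S q m) ≤ q ^ Nat.card S := by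
  have h1 : Nat.card (Du S q m) ≤ Nat.card (Gr S m → ZMod q) :=
    Nat.card_le_card_of_injective (fun χ : Du S q m => (fun a => χ.ap a : Gr S m → ZMod q))
      fun χ ξ h => du_ext fun a => congrFun h a
  rw [Nat.card_fun, Nat.card_zmod] at h1
  refine h1.trans (Nat.pow_le_pow_right (Nat.pos_of_ne_zero (NeZero.ne q)) ?_)
  exact Nat.card_le_card_of_surjective (fun u : S => gk m u) fun a => by
    obtain ⟨u, -, hu⟩ := gk_surj m a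
    exact ⟨u, hu⟩

theorem stg_ev (E : Finset (Pl K)) {ε : ℝ} (hε : 0 < ε) : ∃ Y₁ : ℝ, ∀ Y : ℝ, Y₁ ≤ Y →
    3 ≤ Y ∧ (∀ v ∈ E, (nm v : ℝ) ≤ T0 ε Y) ∧ nr E ≤ Real.log Y := by
  have h1 : Tendsto (fun Y : ℝ => T0 ε Y) atTop atTop :=
    Real.tendsto_exp_atTop.comp ((tendsto_rpow_atTop hε).comp Real.tendsto_log_atTop)
  have h2 : ∀ᶠ Y : ℝ in atTop, ∀ v ∈ E, (nm v : ℝ) ≤ T0 ε Y :=
    (Finset.eventually_all E).2 fun v _ => h1.eventually_ge_atTop _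
  obtain ⟨Y₁, hY₁⟩ := eventually_atTop.1 ((eventually_ge_atTop (3 : ℝ)).and
    (h2.and (Real.tendsto_log_atTop.eventually_ge_atTop (nr E))))
  exact ⟨Y₁, fun Y hY => ⟨(hY₁ Y hY).1, (hY₁ Y hY).2.1, (hY₁ Y hY).2.2⟩⟩

theorem tri3 {a b d : ℂ} {x y : ℝ} (h1 : ‖a - b‖ ≤ x) (h2 : ‖b - d‖ ≤ y) : ‖a - d‖ ≤ x + y :=
  (norm_sub_le_norm_sub_add_norm_sub a b d).trans (add_le_add h1 h2)

/-- one stage -/
theorem stg1 [Fintype S] [Fintype P] (hp : p.Prime) (hζ : IsPrimitiveRoot ζ p)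
    {κ c₀ mm k n : ℕ} (hZ : Siz p κ c₀ mm k P S) (G : SG c S) (m : ℕ) (hm : 1 ≤ m)
    (hmc : m + 1 ≤ c₀) (hFr : Fre G (p ^ κ) m) {L : LDs D QBar} {Fr : FR L} (B : SD D Q A)
    {z : K} (hB : BLG D QBar Q A B κ mm A.g n z)
    {φb φ' : Gal(QBar/K) →* P} {E : Finset (Pl K)} (hF : Fib L c φb φ' E) {sv : Pl K → S}
    {si : Fin A.g → S} (hsv : Svi G L A φb φ' E sv si) (M : ℕ) (hM : c₀ + 1 ≤ M) (ε A₁ : ℝ)
    (hε : 0 < ε) (hA : 0 ≤ A₁) :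
    ∃ C₁ C₀ : ℝ, 3 ≤ C₁ ∧ ∀ C₂ : ℝ, C₁ ≤ C₂ → Gpl p Fr E fun Y s =>
      ∀ (Zw : Finset (Pl K)) (l : List (Pl K)) (Wv : Pl K → FW A) (Wi : Fin A.g → FW A),
        Wq B E k (n + 1) z C₂ Y (wfs L Fr s Zw l Wv Wi) → ∀ ψ : ℝ → ℝ, Cut ψ →
        ‖Mm G B (fdx L Fr B φb φ' E sv si) (wfs L Fr s Zw l Wv Wi) (T0 ε Y) (H35.UB.Zg D Zw E)
            (wR (fdx L Fr B φb φ' E sv si) (wfs L Fr s Zw l Wv Wi) (T0 ε Y) (H35.UB.Zg D Zw E) M ψ Y)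
            (m + 1) -
          Mm G B (fdx L Fr B φb φ' E sv si) (wfs L Fr s Zw l Wv Wi) (T0 ε Y) (H35.UB.Zg D Zw E)
            (wR (fdx L Fr B φb φ' E sv si) (wfs L Fr s Zw l Wv Wi) (T0 ε Y) (H35.UB.Zg D Zw E) M ψ Y) m‖ ≤
          C₀ * (Y * Real.log Y ^ (-A₁)) := by
  have hne : NeZero (p ^ κ) := ⟨(pow_pos hp.pos _).ne'⟩
  obtain ⟨C₁, A', C, h1, h2, h3, hst⟩ := stg (q := p ^ κ) hp G B m hm hFr M (by omega) c₀ E.card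
    A₁ ε hA hε
  obtain ⟨n', rfl⟩ : ∃ n', m = n' + 1 := ⟨m - 1, by omega⟩
  have hdu : ∀ j, Nat.card (Du S (p ^ κ) j) ≤ (p ^ κ) ^ Nat.card S := fun j => card_du
  obtain ⟨C₂', hbx⟩ := bxf hp hζ B hB G hZ.pS hZ.pP hZ.qe (n := n') (by
      have := hZ.h0
      omega) (le_refl A.g)
    (le_trans (Nat.mul_le_mul le_rfl (Nat.mul_le_mul le_rfl (hdu _))) hZ.h1)
    (le_trans (Nat.mul_le_mul (Nat.card_le_card_of_injective (fun x : Px c => x.1)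
      Subtype.val_injective) (hdu _)) hZ.h2) C₁ A' ε hε
  obtain ⟨Y₁, hY₁⟩ := stg_ev E hε
  refine ⟨C₁, C, h1, fun C₂ hC₂ => ⟨Mx (p ^ κ) mm ^ (2 ^ mm), C₂' * (3 * mm + 4), fun C' => ?_⟩⟩
  obtain ⟨Y₀, hY₀⟩ := hbx C'
  refine ⟨max Y₀ Y₁, fun Y hY s hs hg Zw l Wv Wi hW ψ hψ => ?_⟩
  obtain ⟨hY3, hYE, hYl⟩ := hY₁ Y ((le_max_right _ _).trans hY)
  have hNg := ngx hp hZ G (Fr := Fr) B hF hsv hYE hs hW
  have hBx := hY₀ Y ((le_max_left _ _).trans hY) k (p ^ k) (fdx L Fr B φb φ' E sv si)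
    (wfs L Fr s Zw l Wv Wi) (T0 ε Y) ⟨hNg.okX, hNg.okW, hZ.h4, le_rfl, hW.nl, hg, fun v hv hvY =>
      hW.all v hv (hvY.trans (Real.rpow_le_rpow_of_exponent_le (by linarith) hC₂)), hW.ez, hYl,
      le_rfl⟩
  refine (hst Y hY3 k (p ^ k) (fdx L Fr B φb φ' E sv si) (wfs L Fr s Zw l Wv Wi) (H35.UB.Zg D Zw E)
    le_rfl hNg ψ (fun t => ?_) hψ.van hψ.lip hBx).trans (le_of_eq (mul_assoc _ _ _))
  rw [abs_of_nonneg (hψ.nn t)]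
  exact hψ.le t

/-- all stages -/
theorem stgs [Fintype S] [Fintype P] (hp : p.Prime) (hζ : IsPrimitiveRoot ζ p)
    {κ c₀ mm k n : ℕ} (hZ : Siz p κ c₀ mm k P S) (G : SG c S)
    (hFr : ∀ m, 1 ≤ m → m + 1 ≤ c₀ → Fre G (p ^ κ) m) {L : LDs D QBar} {Fr : FR L} (B : SD D Q A)
    {z : K} (hB : BLG D QBar Q A B κ mm A.g n z)
    {φb φ' : Gal(QBar/K) →* P} {E : Finset (Pl K)} (hF : Fib L c φb φ' E) {sv : Pl K → S}
    {si : Fin A.g → S} (hsv : Svi G L A φb φ' E sv si) (M : ℕ) (hM : c₀ + 1 ≤ M) (ε A₁ : ℝ)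
    (hε : 0 < ε) (hA : 0 ≤ A₁) :
    ∃ C₁ C₀ : ℝ, 3 ≤ C₁ ∧ ∀ C₂ : ℝ, C₁ ≤ C₂ → Gpl p Fr E fun Y s =>
      ∀ (Zw : Finset (Pl K)) (l : List (Pl K)) (Wv : Pl K → FW A) (Wi : Fin A.g → FW A),
        Wq B E k (n + 1) z C₂ Y (wfs L Fr s Zw l Wv Wi) → ∀ ψ : ℝ → ℝ, Cut ψ →
        ‖Mm G B (fdx L Fr B φb φ' E sv si) (wfs L Fr s Zw l Wv Wi) (T0 ε Y) (H35.UB.Zg D Zw E)
            (wR (fdx L Fr B φb φ' E sv si) (wfs L Fr s Zw l Wv Wi) (T0 ε Y) (H35.UB.Zg D Zw E) M ψ Y) c₀ -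
          Mm G B (fdx L Fr B φb φ' E sv si) (wfs L Fr s Zw l Wv Wi) (T0 ε Y) (H35.UB.Zg D Zw E)
            (wR (fdx L Fr B φb φ' E sv si) (wfs L Fr s Zw l Wv Wi) (T0 ε Y) (H35.UB.Zg D Zw E) M ψ Y) 1‖ ≤
          C₀ * (Y * Real.log Y ^ (-A₁)) := by
  have key : ∀ j : ℕ, 1 ≤ j → j ≤ c₀ → ∃ C₁ C₀ : ℝ, 3 ≤ C₁ ∧ ∀ C₂ : ℝ, C₁ ≤ C₂ →
      Gpl p Fr E fun Y s =>
      ∀ (Zw : Finset (Pl K)) (l : List (Pl K)) (Wv : Pl K → FW A) (Wi : Fin A.g → FW A),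
        Wq B E k (n + 1) z C₂ Y (wfs L Fr s Zw l Wv Wi) → ∀ ψ : ℝ → ℝ, Cut ψ →
        ‖Mm G B (fdx L Fr B φb φ' E sv si) (wfs L Fr s Zw l Wv Wi) (T0 ε Y) (H35.UB.Zg D Zw E)
            (wR (fdx L Fr B φb φ' E sv si) (wfs L Fr s Zw l Wv Wi) (T0 ε Y) (H35.UB.Zg D Zw E) M ψ Y) j -
          Mm G B (fdx L Fr B φb φ' E sv si) (wfs L Fr s Zw l Wv Wi) (T0 ε Y) (H35.UB.Zg D Zw E)
            (wR (fdx L Fr B φb φ' E sv si) (wfs L Fr s Zw l Wv Wi) (T0 ε Y) (H35.UB.Zg D Zw E) M ψ Y) 1‖ ≤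
          C₀ * (Y * Real.log Y ^ (-A₁)) := by
    intro j hj
    induction j, hj using Nat.le_induction with
    | base =>
      intro _
      refine ⟨3, 0, le_rfl, fun C₂ _ => ⟨0, 0, fun C' => ⟨0, fun Y _ s _ _ Zw l Wv Wi _ ψ _ => ?_⟩⟩⟩
      rw [sub_self, norm_zero, zero_mul]
    | succ j hj ih =>
      intro hjc
      obtain ⟨C₁, C₀, h1, h2⟩ := ih (by omega)
      obtain ⟨C₁', C₀', h1', h2'⟩ := stg1 hp hζ hZ G j hj hjc (hFr j hj hjc) (Fr := Fr) B hB hF hsv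
        M hM ε A₁ hε hA
      refine ⟨max C₁ C₁', C₀' + C₀, h1.trans (le_max_left _ _), fun C₂ hC₂ => ?_⟩
      refine H12.S3.Q.gpl_ge (H12.S3.Q.gpl_and (h2 C₂ ((le_max_left _ _).trans hC₂))
        (h2' C₂ ((le_max_right _ _).trans hC₂))) 0 fun Y _ s hR Zw l Wv Wi hW ψ hψ => ?_
      have e1 := hR.1 Zw l Wv Wi hW ψ hψ
      have e2 := hR.2 Zw l Wv Wi hW ψ hψ
      rw [add_mul]
      exact tri3 e2 e1
  exact key c₀ hZ.c1 le_rfl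

end H12.FB
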