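import Pool.Agent.H12.FB.Sgn
import Pool.Agent.H12.FB.Stg
import Pool.Agent.H73.S3.Wfx

/-!
# [H12 FB WEX] the words for a fixed `Y` (MP_b39724_nt, stage 3, assembly of chapter B)

`wex`: from the conclusion of `fxq`: for all large `Y` and all good places there are `Zw`, `l`, `Wv`, `Wi` with `Wq`. `Zw := ZZ D (Y ^ C₂)`, `l`: `Zw` sorted by the norm, then `S0`.
`svi_ex`: existence of `sv`, `si`. `gpl_self`.
-/

set_option autoImplicit false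

open scoped NumberField commutatorElement
open IsDedekindDomain Filter Topology
open scoped Classical

noncomputable section

namespace H12.FB

open H38.ML H63.MA H38.BB H38.BG H57.PC H57.BRA H77.WD H77.WE H77.GL H77.PC3 H35.CF H35.UB H77.S3
  H71.S3 H1.S3 H73.S3 H24.RK H12.S3 H51.F3 H51.PF H62.BL H77.INP H86.AP

variable {K : IntermediateField ℚ QBar} [NumberField K] {p N : ℕ} {ζ : K} {D : RD0 K p ζ}
  {P : Type} [Group P] {c : CL p N P} {S : Type} [Group S] [MulDistribMulAction P S]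
  {Q : DP K QBar} {A : GS D QBar}

theorem gpl_self {L : LDs D QBar} (Fr : FR L) (E : Finset (Pl K)) : Gpl p Fr E fun Y s =>
    (∀ v ∈ E, s v = 1) ∧ ∃ Mg Cg C' : ℕ, GLp p (cjF Fr s) Mg Cg C' Y :=
  ⟨0, 0, fun C' => ⟨0, fun _ _ _ hs hg => ⟨hs, 0, 0, C', hg⟩⟩⟩

private theorem mzz {Y : ℝ} {v : Pl K} : v ∈ ZZ D Y ↔ (nm v : ℝ) ≤ Y ∧ D.Gd v := by
  unfold ZZ
  rw [Finset.mem_filter, H57.AN.mem_PB]

/-- the order of the places -/
theorem srt_ex (Z T : Finset (Pl K)) (h : ∀ v ∈ Z, v ∉ T) :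
    ∃ l : List (Pl K), l.Nodup ∧ (∀ v, v ∈ l ↔ v ∈ Z ∨ v ∈ T) ∧
      l.Pairwise fun v w => w ∈ Z → v ∈ Z ∧ nm v ≤ nm w := by
  have key : ∃ l : List (Pl K), l.Nodup ∧ (∀ v, v ∈ l ↔ v ∈ Z) ∧
      l.Pairwise fun v w => nm v ≤ nm w := by
    clear h
    induction Z using Finset.induction_on_max_value (f := fun v : Pl K => nm v) with
    | empty => exact ⟨[], List.nodup_nil, fun v => by simp, List.Pairwise.nil⟩
    | insert a s ha hm ih =>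
      obtain ⟨l, h1, h2, h3⟩ := ih
      refine ⟨l ++ [a], ?_, fun v => ?_, ?_⟩
      · refine List.Nodup.append h1 (List.nodup_singleton a) fun v hv hv' => ?_
        rw [List.mem_singleton.1 hv', h2] at hv
        exact ha hv
      · rw [List.mem_append, List.mem_singleton, h2, Finset.mem_insert, or_comm]
      · refine List.pairwise_append.2 ⟨h3, List.pairwise_singleton _ _, fun v hv w hw => ?_⟩
        rw [List.mem_singleton.1 hw]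
        exact hm v ((h2 v).1 hv)
  obtain ⟨l, h1, h2, h3⟩ := key
  refine ⟨l ++ T.toList, ?_, fun v => ?_, ?_⟩
  · exact List.Nodup.append h1 T.nodup_toList fun v hv hv' =>
      h v ((h2 v).1 hv) (Finset.mem_toList.1 hv')
  · rw [List.mem_append, h2, Finset.mem_toList]
  · refine List.pairwise_append.2 ⟨?_, ?_, fun v _ w hw hw' => ?_⟩
    · exact h3.imp_of_mem fun {v w} hv _ hvw _ => ⟨(h2 v).1 hv, hvw⟩
    · exact List.pairwise_of_forall_mem_list fun v _ w hw hw' =>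
        absurd (Finset.mem_toList.1 hw) (h w hw')
    · exact absurd (Finset.mem_toList.1 hw) (h w hw')

theorem wex {k n : ℕ} {z : K} (B : SD D Q A) {L : LDs D QBar} (hL : NL (n + 1) z L) (Fr : FR L)
    (hfx : ∀ L : LDs D QBar, NL (n + 1) z L → ∀ (Fr : FR L)
      (Mg Cg C' : ℕ) (Y C₁ : ℝ), GLp p Fr Mg Cg C' Y → ∀ Zw : Finset (Pl K),
        (∀ v ∈ Zw, v ∉ D.S0) → (∀ v, D.Gd v → (nm v : ℝ) ≤ Y ^ C₁ → v ∈ Zw) →
        ∀ l : List (Pl K), l.Nodup → (∀ v, v ∈ l ↔ v ∈ Zw ∨ v ∈ D.S0) →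
          ∃ (W : Pl K → FW A) (Yw : Fin A.g → FW A),
            Fx k (n + 1) z Mg Cg C' C₁ Y Fr B Zw l W Yw) (E : Finset (Pl K))
    (hE : ∀ v ∈ E, D.Gd v) (C₂ : ℝ) (hC : 1 ≤ C₂) : ∃ Y₀ : ℝ, ∀ Y : ℝ, Y₀ ≤ Y →
      ∀ s : Pl K → Gal(QBar/K), (∃ Mg Cg C' : ℕ, GLp p (cjF Fr s) Mg Cg C' Y) →
        ∃ (Zw : Finset (Pl K)) (l : List (Pl K)) (Wv : Pl K → FW A) (Wi : Fin A.g → FW A),
          Wq B E k (n + 1) z C₂ Y (wfs L Fr s Zw l Wv Wi) := by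
  have h2 : 0 ≤ ∑ v ∈ E, (nm v : ℝ) := Finset.sum_nonneg fun _ _ => Nat.cast_nonneg _
  refine ⟨1 + ∑ v ∈ E, (nm v : ℝ), fun Y hY s hs => ?_⟩
  have hE2 : ∀ v ∈ E, (nm v : ℝ) ≤ Y ^ C₂ := fun v hv => by
    have h1 : (nm v : ℝ) ≤ ∑ v ∈ E, (nm v : ℝ) :=
      Finset.single_le_sum (f := fun v => (nm v : ℝ)) (fun _ _ => Nat.cast_nonneg _) hv
    have h3 : Y ≤ Y ^ C₂ := by
      calc Y = Y ^ (1 : ℝ) := (Real.rpow_one Y).symm
        _ ≤ Y ^ C₂ := Real.rpow_le_rpow_of_exponent_le (by linarith) hC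
    linarith
  obtain ⟨Mg, Cg, C', hG⟩ := hs
  have h0 : ∀ v ∈ ZZ D (Y ^ C₂), v ∉ D.S0 := fun v hv => (mzz.1 hv).2.1
  obtain ⟨l, hl1, hl2, hl3⟩ := srt_ex (ZZ D (Y ^ C₂)) D.S0 h0
  obtain ⟨Wv, Wi, hF⟩ := hfx (cjL L s) (nl_cj hL s) (cjF Fr s) Mg Cg C' Y C₂ hG (ZZ D (Y ^ C₂)) h0
    (fun v hv hvY => mzz.2 ⟨hvY, hv⟩) l hl1 hl2
  exact ⟨ZZ D (Y ^ C₂), l, Wv, Wi, wf_ok B (wfs L Fr s (ZZ D (Y ^ C₂)) l Wv Wi) hF, hl3,
    nl_cj hL s, fun v hv hvY => mzz.2 ⟨hvY, hv⟩, fun v hv => mzz.2 ⟨hE2 v hv, hE v hv⟩⟩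

theorem svi_ex (G : SG c S) (hT : Tg G = Tc c) (L : LDs D QBar) (A : GS D QBar)
    {φb φ' : Gal(QBar/K) →* P} {E : Finset (Pl K)} (hF : Fib L c φb φ' E) :
    ∃ (sv : Pl K → S) (si : Fin A.g → S), Svi G L A φb φ' E sv si := by
  by_cases hφ : φ' = φb
  · refine ⟨fun _ => 1, fun _ => 1, fun v _ => ?_, fun i => ?_, fun _ =>
      ⟨fun _ => rfl, fun _ => rfl⟩⟩
    · rw [map_one, one_mul, hφ]
    · rw [map_one, one_mul, hφ]
  · have key : ∀ σ, ∃ u : S, G.pi u * φb σ = φ' σ := fun σ => by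
      have h1 : φb σ * ((φb σ)⁻¹ * φ' σ) * (φb σ)⁻¹ ∈ Tc c :=
        Subgroup.normalClosure_normal.conj_mem _ (hF.eq σ) _
      rw [← hT] at h1
      obtain ⟨u, hu⟩ := h1
      exact ⟨u, by rw [hu]; group⟩
    choose f hf using key
    exact ⟨fun v => f (L.t v), fun i => f (A.a i), fun v _ => hf _, fun i => hf _,
      fun h => absurd h hφ⟩

end H12.FB
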