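import Pool.Agent.H73.S3.Neg
import Pool.Agent.H71.S3.Cnw
import Pool.Agent.H12.S3.Smo

/-!
# [H12 FB DF] MP_b39724_nt, stage 3, the assembly of chapter B (`EQ3s p`): definitions

* `SGn p B`: the decomposition groups at `S0` are generated by the `a i`, `b i` (`B.pl i = v`) in finite `p`-quotients.
* `Wq B E k j z C₁ Y W`: what is known about the places and the words `W : WF A` for a fixed `Y`.
* `fdx`: the data of the fibre of `φb` and of the type `φ'`; it does not depend on `Y` and on the conjugation of the places.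
* `wfs L Fr s Zw l Wv Wi`: the places conjugated by `s`, with words.
-/

set_option autoImplicit false

open scoped NumberField commutatorElement
open IsDedekindDomain Filter Topology
open scoped Classical

noncomputable section

namespace H12.FB

open H38.ML H63.MA H38.BB H38.BG H57.PC H57.BRA H77.WD H77.WE H77.GL H77.PC3 H35.CF H35.UB H77.S3
  H71.S3 H1.S3 H73.S3 H24.RK

variable {K : Type} [Field K] [NumberField K] {Ω : Type} [Field Ω] [Algebra K Ω]
  {p N : ℕ} {ζ : K} {D : RD0 K p ζ} {Q : DP K Ω} {A : GS D Ω} {P : Type} [Group P]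
  {S : Type} [Group S]

/-- the decomposition groups at `S0` are generated by the `a i`, `b i` in `p`-quotients -/
def SGn (p : ℕ) {ζ : K} {D : RD0 K p ζ} {Q : DP K Ω} {A : GS D Ω} (B : SD D Q A) : Prop :=
  ∀ v ∈ D.S0, ∀ (H : Type) [Group H] [Finite H], IsPGroup p H → ∀ φ : Gal(Ω/K) →* H, FT φ →
    ∀ σ ∈ dec (K := K) (Q.P v),
      φ σ ∈ Subgroup.closure {x | ∃ i, B.pl i = v ∧ (x = φ (A.a i) ∨ x = φ (B.b i))}

/-- the places and the words for a fixed `Y` -/
structure Wq (B : SD D Q A) (E : Finset (Pl K)) (k j : ℕ) (z : K) (C₁ Y : ℝ) (W : WF A) :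
    Prop where
  ok : W.Ok B k (p ^ k)
  srt : W.Srt
  nl : NL j z W.L
  all : ∀ v, D.Gd v → (nm v : ℝ) ≤ Y ^ C₁ → v ∈ W.Z
  ez : E ⊆ W.Z

/-- the data of the fibre -/
def fdx (L : LDs D Ω) (Fr : FR L) (B : SD D Q A) (φb φ' : Gal(Ω/K) →* P) (E : Finset (Pl K))
    (sv : Pl K → S) (si : Fin A.g → S) : FD A P S :=
  ⟨E, φb, ⟨fun i => φ' (A.a i), fun i => φ' (B.b i), fun v => φ' (L.t v), fun v => φ' (Fr.F v)⟩,
    sv, si⟩

/-- the conjugated places with words -/
def wfs (L : LDs D Ω) (Fr : FR L) (s : Pl K → Gal(Ω/K)) (Zw : Finset (Pl K)) (l : List (Pl K))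
    (Wv : Pl K → FW A) (Wi : Fin A.g → FW A) : WF A := ⟨cjL L s, cjF Fr s, Zw, l, Wv, Wi⟩

end H12.FB
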