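import Pool.Agent.H97.S3.Nga
import Pool.Agent.H62.S3.Bxn
import Pool.Agent.H86.A2.Bx2
import Pool.Agent.H93.BX.Blx
import Pool.Agent.H12.FB.Stg

/-!
# [H12 FB NGB] the negligible part of stage 1 in the form used by the packing (MP_b39724_nt, stage 3)

`ngb`: the bound of `NG` for all good places, all words, all cut-off functions: from `nga` (H97/S3/Nga) and `bxn` (H62/S3/Bxn), with the black box `GPR` of order `p ^ κ`.
-/

set_option autoImplicit false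

open scoped NumberField commutatorElement
open IsDedekindDomain Filter Topology
open scoped Classical

noncomputable section

namespace H12.FB

open H38.ML H63.MA H38.BB H38.BG H57.PC H57.BRA H77.WD H77.WE H77.GL H77.PC3 H35.CF H35.UB H77.S3
  H71.S3 H1.S3 H73.S3 H24.RK H12.S3 H51.F3 H51.PF H93.BX H93.BY H38.AS H77.S0T H77.FLD H77.PLF H35.AC

attribute [local instance 50] Fintype.ofFinite

private theorem ngb_pow {P N : Type} [Group P] [AddCommGroup N] [DistribMulAction P N] (m : N) :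
    ∀ j : ℕ, (⟨m, 1⟩ : Sd P N) ^ j = ⟨j • m, 1⟩
  | 0 => by
    rw [pow_zero, zero_smul]
    rfl
  | j + 1 => by
    rw [pow_succ, ngb_pow m j, sd_mul]
    simp only [one_smul, mul_one]
    rw [succ_nsmul]

private theorem ngb_pg {P N : Type} [Group P] [AddCommGroup N] [DistribMulAction P N] {p r : ℕ}
    (hP : IsPGroup p P) (hN : ∀ m : N, p ^ r • m = 0) : IsPGroup p (Sd P N) := by
  intro z
  obtain ⟨a, ha⟩ := hP z.x
  refine ⟨a + r, ?_⟩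
  have h1 : (z ^ p ^ a).x = 1 := by
    have h2 : Sd.pr (z ^ p ^ a) = (Sd.pr z) ^ p ^ a := map_pow _ _ _
    exact h2.trans ha
  have h2 : z ^ p ^ a = ⟨(z ^ p ^ a).n, 1⟩ := Sd.ext rfl h1
  rw [pow_add, pow_mul, h2, ngb_pow, hN]
  rfl

private theorem ngb_du {S : Type} [Group S] {q m : ℕ} (χ : Du S q m) : q • χ = 0 := by
  have h2 : ∀ (j : ℕ) (a : Gr S m), (j • χ).ap a = j • χ.ap a := by
    intro j a
    induction j with
    | zero =>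
      rw [zero_smul, zero_smul]
      rfl
    | succ j ih =>
      rw [succ_nsmul, succ_nsmul, ← ih]
      rfl
  refine du_ext fun a => ?_
  rw [h2, nsmul_eq_mul, ZMod.natCast_self, zero_mul]
  rfl

private theorem ngb_card {P' S' : Type} [Group P'] [Group S'] [MulDistribMulAction P' S']
    {q m : ℕ} : Nat.card (Sd P' (Du S' q m)) = Nat.card P' * Nat.card (Du S' q m) := by
  rw [mul_comm, ← Nat.card_prod]
  exact Nat.card_congr ⟨fun z => (z.n, z.x), fun z => ⟨z.1, z.2⟩, fun _ => rfl, fun _ => rfl⟩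

theorem ngb (p : ℕ) (hp : p.Prime) (κ c₀ mm : ℕ) : ∃ k₀ : ℕ, ∀ k : ℕ, k₀ ≤ k → ∃ n₀ : ℕ,
    ∀ n : ℕ, n₀ ≤ n → ∀ (P S : Type) [Group P] [Fintype P] [Group S] [Fintype S]
      [MulDistribMulAction P S], Siz p κ c₀ mm k P S →
    ∀ (N : ℕ) (c : CL p N P) (_ : 1 ≤ N) (G : SG c S)
      (K : IntermediateField ℚ QBar) [NumberField K] (ζ : K) (_ : IsPrimitiveRoot ζ p) (z : K)
      (_ : IsPrimitiveRoot z (p ^ (n + 1))) (_ : z ^ p ^ n = ζ) (D : RD K p ζ)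
      (Q : DP K QBar) (A : GS D.toRD0 QBar) (B : SD D.toRD0 Q A) (_ : SGn p B)
      (L : LDs D.toRD0 QBar) (_ : NL (n + 1) z L) (Fr : FR L) (_ : LQ L Q)
      (φb φ' : Gal(QBar/K) →* P) (E : Finset (Pl K)) (_ : Fib L c φb φ' E)
      (sv : Pl K → S) (si : Fin A.g → S) (_ : Svi G L A φb φ' E sv si) (_ : NeZero (p ^ κ)),
      ∃ M₁ : ℕ, ∀ M : ℕ, M₁ ≤ M → ∀ ε : ℝ, 0 < ε → ε < 1 → ∀ A₁ : ℕ, ∃ C₁ C₀ : ℝ, 3 ≤ C₁ ∧
      ∀ C₂ : ℝ, C₁ ≤ C₂ → Gpl p Fr E fun Y s =>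
        ∀ (Zw : Finset (Pl K)) (l : List (Pl K)) (Wv : Pl K → FW A) (Wi : Fin A.g → FW A),
          Wq B E k (n + 1) z C₂ Y (wfs L Fr s Zw l Wv Wi) → ∀ ψ : ℝ → ℝ, Cut ψ →
          ‖NG (p ^ κ) G B (fdx L Fr B φb φ' E sv si) (wfs L Fr s Zw l Wv Wi) (T0 ε Y)
            (H35.UB.Zg D.toRD0 Zw E) (wR (fdx L Fr B φb φ' E sv si) (wfs L Fr s Zw l Wv Wi)
              (T0 ε Y) (H35.UB.Zg D.toRD0 Zw E) M ψ Y)‖ ≤
            C₀ * (Y * Real.log Y ^ (-(A₁ : ℝ))) := by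
  refine ⟨mm, fun k hk => ⟨κ + 2, fun n hn P S _ _ _ _ _ hZ N c _ G K _ ζ hζ z hz _ D Q A B _ L _
    Fr _ φb φ' E hF sv si hsv hne => ⟨1, fun M hM ε hε _ A₁ => ?_⟩⟩⟩
  have hGR : H57.GP.GPR D.toRD0 QBar (p ^ κ) :=
    H86.A2.gpr_mono (pow_pos hp.pos κ) (pow_pos hp.pos 2) (by
      rw [← pow_add]
      exact gprp hp (by omega) (show κ + 2 < n + 1 by omega) hζ hz D.toRD0)
  obtain ⟨C₁, A', C, h1, h2, h3, hst⟩ := H97.S3.nga (q := p ^ κ) G B M hM E.card (A₁ : ℝ) ε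
    (Nat.cast_nonneg _) hε
  obtain ⟨Mg, Cg, hbx⟩ := H62.S3.bxn hp hζ hGR G B C₁ A' ε hε
  obtain ⟨Y₁, hY₁⟩ := stg_ev E hε
  have hDs : Sml p k (p ^ k) (Sd P (Du S (p ^ κ) 1)) := by
    refine sml_of hp le_rfl (ngb_pg (r := κ) hZ.pP fun m => ngb_du m) ?_
    rw [ngb_card]
    refine (Nat.mul_le_mul le_rfl card_du).trans (hZ.h2.trans (hk.trans ?_))
    exact (Nat.lt_pow_self hp.one_lt).le
  refine ⟨C₁, C, h1, fun C₂ hC₂ => ⟨Mg, Cg, fun C' => ?_⟩⟩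
  obtain ⟨Y₀, hY₀⟩ := hbx C'
  refine ⟨max Y₀ Y₁, fun Y hY s hs hg Zw l Wv Wi hW ψ hψ => ?_⟩
  obtain ⟨hY3, hYE, hYl⟩ := hY₁ Y ((le_max_right _ _).trans hY)
  have hNg := ngx hp hZ G (Fr := Fr) B hF hsv hYE hs hW
  have hBx := hY₀ Y ((le_max_left _ _).trans hY) k (p ^ k) (fdx L Fr B φb φ' E sv si)
    (wfs L Fr s Zw l Wv Wi) hNg.okX hNg.okW hDs hg hW.ez hYl fun v hv hvY =>
      hW.all v hv (hvY.trans (Real.rpow_le_rpow_of_exponent_le (by linarith) hC₂))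
  refine (hst Y hY3 (fdx L Fr B φb φ' E sv si) (wfs L Fr s Zw l Wv Wi) (H35.UB.Zg D.toRD0 Zw E)
    le_rfl ψ (fun t => ?_) hψ.van hψ.lip hBx).trans (le_of_eq (mul_assoc _ _ _))
  rw [abs_of_nonneg (hψ.nn t)]
  exact hψ.le t

end H12.FB
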