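import Pool.Agent.H71.S3.Od
import Pool.Agent.H12.FB.Stg
import Pool.Agent.H77.WE.GlE
import Pool.Agent.H93.BX.Phs
import Pool.Agent.H93.BX.Crd
import Pool.Agent.H73.S3.Bxb

/-!
# [H12 FB PHX] the phases of the main term of stage 1 (MP_b39724_nt, stage 3)

`ft κ`: the homomorphism `Γ → Du S q 1 ⋊ P` of `κ ∈ ZH`. `Gf`: the image of `Γ` in `∏ κ, Du S q 1 ⋊ P` times `P`; `gf`, `rf`: the homomorphisms.
`phx`: the phases: `Z = AddChar (AN G.Pi) ℂ × ZH`, `X = S`. `phx_w`: the factor is `w1`. `bx`: the characters `b`; `bx_sum`: their sum is `Q1`.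
-/

set_option autoImplicit false

open scoped NumberField commutatorElement
open IsDedekindDomain Filter Topology
open scoped Classical

noncomputable section

namespace H12.FB

open H38.ML H63.MA H38.BB H38.BG H57.PC H57.BRA H77.WD H77.WE H77.GL H77.PC3 H35.CF H35.UB H77.S3
  H71.S3 H1.S3 H73.S3 H24.RK H12.S3 H51.F3 H51.PF

attribute [local instance 50] Fintype.ofFinite

variable {K : IntermediateField ℚ QBar} [NumberField K] {p N : ℕ} {ζ : K} {D : RD0 K p ζ}
  {P : Type} [Group P] {c : CL p N P} {S : Type} [Group S] [MulDistribMulAction P S]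
  {Q : DP K QBar} {A : GS D QBar} {q : ℕ}

section zh

variable {L : LDs D QBar} {E : Finset (Pl K)} {φb : Gal(QBar/K) →* P} (hφ : Unz L E φb)

/-- the homomorphism of `κ` -/
def ft (κ : ZH S q L E φb hφ) : Gal(QBar/K) →* Sd P (Du S q 1) :=
  Exists.choose (p := fun Φ : Gal(QBar/K) →* Sd P (Du S q 1) =>
    Unz L E Φ ∧ ∀ σ, Φ σ = ⟨κ.1 σ, φb σ⟩) κ.2

theorem ft_unz (κ : ZH S q L E φb hφ) : Unz L E (ft hφ κ) :=
  (Exists.choose_spec (p := fun Φ : Gal(QBar/K) →* Sd P (Du S q 1) =>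
    Unz L E Φ ∧ ∀ σ, Φ σ = ⟨κ.1 σ, φb σ⟩) κ.2).1

theorem ft_val (κ : ZH S q L E φb hφ) (σ : Gal(QBar/K)) : ft hφ κ σ = ⟨κ.1 σ, φb σ⟩ :=
  (Exists.choose_spec (p := fun Φ : Gal(QBar/K) →* Sd P (Du S q 1) =>
    Unz L E Φ ∧ ∀ σ, Φ σ = ⟨κ.1 σ, φb σ⟩) κ.2).2 σ

include hφ in
theorem zh_fin [Finite P] [Finite S] [NeZero q] (hp : p.Prime) (hζ : IsPrimitiveRoot ζ p)
    (A : GS D QBar) (hD : IsPGroup p (Sd P (Du S q 1))) : Finite (ZH S q L E φb hφ) := by
  have h1 := hon_finU hp hζ L A E (Sd P (Du S q 1))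
  have : Finite {Φ : Gal(QBar/K) →* Sd P (Du S q 1) | Unz L E Φ ∧ IsPGroup p Φ.range} := h1
  refine Finite.of_injective (fun κ : ZH S q L E φb hφ =>
    (⟨ft hφ κ, ft_unz hφ κ, hD.to_subgroup _⟩ :
      {Φ : Gal(QBar/K) →* Sd P (Du S q 1) | Unz L E Φ ∧ IsPGroup p Φ.range})) fun κ κ' h => ?_
  refine Subtype.ext (funext fun σ => ?_)
  have h2 : ft hφ κ σ = ft hφ κ' σ := DFunLike.congr_fun (congrArg Subtype.val h) σ
  rw [ft_val, ft_val] at h2
  exact congrArg Sd.n h2

/-- the product homomorphism -/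
def fto : Gal(QBar/K) →* ((ZH S q L E φb hφ) → Sd P (Du S q 1)) × P :=
  MonoidHom.prod (MonoidHom.pi fun κ => ft hφ κ) φb

variable (S q) in
/-- the group of the phases -/
abbrev Gf : Type := (fto (S := S) (q := q) hφ).range

variable (S q) in
/-- the homomorphism to the group of the phases -/
def gf : Gal(QBar/K) →* Gf S q hφ := (fto (S := S) (q := q) hφ).rangeRestrict

variable (S q) in
/-- the projection -/
def rf : Gf S q hφ →* P := (MonoidHom.snd _ _).comp (fto (S := S) (q := q) hφ).range.subtype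

theorem rf_gf : (rf S q hφ).comp (gf S q hφ) = φb := by
  ext σ
  rfl

theorem gf_surj : Function.Surjective (gf S q hφ) :=
  MonoidHom.rangeRestrict_surjective (fto (S := S) (q := q) hφ)

/-- the value of `κ` -/
def nv (κ : ZH S q L E φb hφ) (f : Gf S q hφ) : Du S q 1 := (f.1.1 κ).n

theorem nv_gf (κ : ZH S q L E φb hφ) (σ : Gal(QBar/K)) : nv hφ κ (gf S q hφ σ) = κ.1 σ :=
  congrArg Sd.n (ft_val hφ κ σ)

theorem nv_add (κ κ' : ZH S q L E φb hφ) (f : Gf S q hφ) :
    nv hφ (κ + κ') f = nv hφ κ f + nv hφ κ' f := by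
  obtain ⟨σ, rfl⟩ := gf_surj hφ f
  rw [nv_gf, nv_gf, nv_gf]
  rfl

theorem nv_one (κ : ZH S q L E φb hφ) : nv hφ κ 1 = 0 := rfl

theorem gf_exp [Finite P] [Finite S] [NeZero q] (hp : p.Prime) {m : ℕ} (hP : IsPGroup p P)
    (hD : IsPGroup p (Sd P (Du S q 1))) (h1 : Nat.card (Sd P (Du S q 1)) ≤ m)
    (h2 : Nat.card P ≤ m) (f : Gf S q hφ) : f ^ p ^ m = 1 := by
  have key : ∀ (H : Type) [Group H] [Finite H], IsPGroup p H → Nat.card H ≤ m →
      ∀ x : H, x ^ p ^ m = 1 := by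
    intro H _ _ hH hm x
    exact (sml_of hp (k := m) (Mw := m) (Nat.lt_pow_self hp.one_lt).le hH hm).2.2 x
  refine Subtype.ext (Prod.ext (funext fun κ => ?_) ?_)
  · show (f.1.1 κ) ^ p ^ m = 1
    exact key _ hD h1 _
  · show (f.1.2) ^ p ^ m = 1
    exact key _ hP h2 _

theorem gf_unz [Finite (ZH S q L E φb hφ)] : Unz L E (gf S q hφ) := by
  obtain ⟨F₁, h1, h2⟩ := ft_pi (H := fun _ : ZH S q L E φb hφ => Sd P (Du S q 1))
    (fun κ => ft hφ κ) fun κ => (ft_unz hφ κ).1
  obtain ⟨F₂, h3, h4⟩ := hφ.1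
  refine ⟨⟨F₁ ⊔ F₂, inferInstance, fun σ hσ => ?_⟩, fun v hv hE => ?_⟩
  · have h5 := h2 (IntermediateField.fixingSubgroup_antitone (le_sup_left : F₁ ≤ F₁ ⊔ F₂) hσ)
    have h6 := h4 (IntermediateField.fixingSubgroup_antitone (le_sup_right : F₂ ≤ F₁ ⊔ F₂) hσ)
    rw [MonoidHom.mem_ker] at h5 h6 ⊢
    exact Subtype.ext (Prod.ext h5 h6)
  · refine Subtype.ext (Prod.ext (funext fun κ => ?_) ?_)
    · exact (ft_unz hφ κ).2 v hv hE
    · exact hφ.2 v hv hE

end zh

section ph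

variable (G : SG c S) {L : LDs D QBar} {E : Finset (Pl K)} {φb : Gal(QBar/K) →* P}
  (hφ : Unz L E φb)

/-- the number of the conjugators -/
theorem a_sum [Fintype S] [Finite P] (hT : Tg G = Tc c) (s : Px c) (g : P) :
    ∑ u : S, (if Commute s.1 (G.pi u * g) then 1 / (Fintype.card S : ℝ) else 0) =
      Gd (Tc c) 0 s.1 g := by
  have hS : 0 < Fintype.card S := Fintype.card_pos
  have hN : (Tc c).Normal := by
    unfold Tc
    infer_instance
  have hmem : ∀ t : P, t ∈ Tc c ↔ t ∈ G.pi.range := fun t => by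
    rw [← hT]
    rfl
  -- the homomorphism onto `T`, conjugated
  let f : S →* Tc c := MonoidHom.mk' (fun u => ⟨g⁻¹ * G.pi u * g, by
      have h := hN.conj_mem (G.pi u) ((hmem _).2 ⟨u, rfl⟩) g⁻¹
      rwa [inv_inv] at h⟩) fun u u' => Subtype.ext (by
      show g⁻¹ * G.pi (u * u') * g = (g⁻¹ * G.pi u * g) * (g⁻¹ * G.pi u' * g)
      rw [map_mul]
      group)
  have hf : Function.Surjective f := by
    rintro ⟨t, ht⟩
    have h := hN.conj_mem t ht g
    obtain ⟨u, hu⟩ := (hmem _).1 h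
    refine ⟨u, Subtype.ext ?_⟩
    show g⁻¹ * G.pi u * g = t
    rw [hu]
    group
  have h1 := mean_hom f hf fun t : Tc c => if Commute s.1 (g * t) then (1 : ℂ) else 0
  have e1 : ((∑ u : S, (if Commute s.1 (G.pi u * g) then 1 / (Fintype.card S : ℝ) else 0) : ℝ) :
      ℂ) = (∑ u : S, if Commute s.1 (g * (f u : P)) then (1 : ℂ) else 0) / (Fintype.card S : ℂ) := by
    rw [Complex.ofReal_sum, Finset.sum_div]
    refine Finset.sum_congr rfl fun u _ => ?_
    have e2 : g * (f u : P) = G.pi u * g := by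
      show g * (g⁻¹ * G.pi u * g) = _
      group
    rw [e2]
    split_ifs
    · push_cast
      rfl
    · rw [Complex.ofReal_zero, zero_div]
  have e3 : ((Gd (Tc c) 0 s.1 g : ℝ) : ℂ) =
      (∑ t : Tc c, if Commute s.1 (g * (t : P)) then (1 : ℂ) else 0) /
        (Fintype.card (Tc c) : ℂ) := by
    have e4 : Gd (Tc c) 0 s.1 g = (Nat.card {t : Tc c // Commute s.1 (g * (t : P))} : ℝ) /
        (Nat.card (Tc c) : ℝ) := rfl
    rw [e4, Finset.sum_boole, ← Fintype.card_subtype, Nat.card_eq_fintype_card,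
      Nat.card_eq_fintype_card]
    push_cast
    rfl
  have e5 : ((∑ u : S, (if Commute s.1 (G.pi u * g) then 1 / (Fintype.card S : ℝ) else 0) : ℝ) :
      ℂ) = ((Gd (Tc c) 0 s.1 g : ℝ) : ℂ) := by
    rw [e1, e3]
    exact h1
  exact_mod_cast e5

/-- THE PHASES -/
def phx [Fintype S] [Finite P] [NeZero q] [Finite (ZH S q L E φb hφ)] (hT : Tg G = Tc c) :
    Phs c (rf S q hφ) where
  X := S
  fX := inferInstance
  Z := AddChar (AN G.Pi) ℂ × Multiplicative (ZH S q L E φb hφ)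
  gZ := inferInstance
  fZ := Fintype.ofFinite _
  a s f u := if Commute s.1 (G.pi u * rf S q hφ f) then 1 / (Fintype.card S : ℝ) else 0
  e z s f u := ep q ((nv hφ (Multiplicative.toAdd z.2) f).ap (rf S q hφ f • gk 1 (G.y s))) *
    z.1 (nk G.Pi (⁅(il (G.y s) : SP S P),
      il u * SemidirectProduct.inr (rf S q hφ f)⁆.left))
  a_nn s f u := by
    split_ifs
    · positivity
    · exact le_rfl
  a_sum s f := a_sum G hT s _
  e_nm z s f u := by
    rw [norm_mul, ep_norm, one_mul]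
    exact AddChar.norm_apply _ _
  e_mul z z' s f u := by
    rw [Prod.fst_mul, Prod.snd_mul, toAdd_mul, nv_add, ap_add, H93.BX.ep_addo, AddChar.mul_apply]
    ring
  one s := by
    refine ⟨1, ?_, fun z => ?_⟩
    · rw [if_pos]
      · exact div_pos one_pos (by exact_mod_cast Fintype.card_pos)
      · rw [map_one, map_one, one_mul]
        exact Commute.one_right _
    · rw [nv_one, ap_zero, ep_zero, one_mul, map_one]
      have h1 : (⁅(il (G.y s) : SP S P), il (1 : S) * SemidirectProduct.inr (1 : P)⁆) = 1 := by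
        have h2 : (il (1 : S) : SP S P) = 1 := map_one _
        rw [h2, map_one, one_mul, commutatorElement_one_right]
      rw [h1, SemidirectProduct.one_left, nk_one]
      exact AddChar.map_zero_eq_one _

theorem phx_w0 [Fintype S] [Finite P] [NeZero q] [Finite (ZH S q L E φb hφ)] (hT : Tg G = Tc c)
    (z : (phx G hφ hT).Z) (s : Px c) (f : Gf S q hφ) :
    (phx G hφ hT).w z s f = ∑ u : S,
      (((if Commute s.1 (G.pi u * rf S q hφ f) then 1 / (Fintype.card S : ℝ) else 0 : ℝ)) : ℂ) *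
      (ep q ((nv hφ (Multiplicative.toAdd z.2) f).ap (rf S q hφ f • gk 1 (G.y s))) *
        z.1 (nk G.Pi (⁅(il (G.y s) : SP S P),
          il u * SemidirectProduct.inr (rf S q hφ f)⁆.left))) := rfl

theorem phx_w [Fintype S] [Finite P] [NeZero q] [Finite (ZH S q L E φb hφ)] (hT : Tg G = Tc c)
    (ψ : AddChar (AN G.Pi) ℂ) (κ : ZH S q L E φb hφ) (s : Px c) (σ : Gal(QBar/K)) :
    (phx G hφ hT).w (ψ, Multiplicative.ofAdd κ) s (gf S q hφ σ) =
      w1 G ψ s (φb σ) 0 (κ.1 σ) := by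
  rw [phx_w0]
  unfold w1 H71.S3.qf
  rw [mul_div_assoc', Finset.mul_sum, Finset.sum_div]
  refine Finset.sum_congr rfl fun u _ => ?_
  have e1 : rf S q hφ (gf S q hφ σ) = φb σ := rfl
  have e2 : nv hφ (Multiplicative.toAdd (Multiplicative.ofAdd κ)) (gf S q hφ σ) = κ.1 σ :=
    nv_gf hφ κ σ
  rw [e1, e2]
  by_cases h : Commute s.1 (G.pi u * φb σ)
  · rw [if_pos h, if_pos h, ap_zero, neg_zero, ep_zero, mul_one]
    push_cast
    field_simp
  · rw [if_neg h, if_neg h, Complex.ofReal_zero, zero_mul, mul_zero, zero_div]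

end ph

section bad

theorem zeta_add {F N' I : Type} [Group F] [AddCommGroup N'] (k k' : F → N') (a d : I → F)
    (l : List I) (i : I) : zeta (fun w => k w + k' w) a d l i = zeta k a d l i + zeta k' a d l i := by
  unfold zeta
  exact add_sub_add_comm _ _ _ _

theorem zet_add {F N' I : Type} [Group F] [AddCommGroup N'] (k k' : F → N') (a d : I → F)
    (l : List I) (i : I) :
    zet' (fun w => k w + k' w) a d l i = zet' k a d l i + zet' k' a d l i := by
  unfold zet'
  exact add_sub_add_comm _ _ _ _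

theorem zeta_zero {F N' I : Type} [Group F] [AddCommGroup N'] (a d : I → F)
    (l : List I) (i : I) : zeta (fun _ : F => (0 : N')) a d l i = 0 := by
  unfold zeta
  exact sub_zero _

theorem zet_zero {F N' I : Type} [Group F] [AddCommGroup N'] (a d : I → F)
    (l : List I) (i : I) : zet' (fun _ : F => (0 : N')) a d l i = 0 := by
  unfold zet'
  exact sub_zero _

variable (G : SG c S) (B : SD D Q A) (X : FD A P S) (W : WF A) {L : LDs D QBar}
  {E : Finset (Pl K)} {φb : Gal(QBar/K) →* P} (hφ : Unz L E φb)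

/-- the characters of the bad places -/
def bx [NeZero q] (a d : Pl K ⊕ Fin A.g → Gal(QBar/K)) (u : {u : J0 X → S // G0 G B X W u}) :
    (AddChar (AN G.Pi) ℂ × Multiplicative (ZH S q L E φb hφ)) →* ℂ where
  toFun z := b1 G B X W z.1 (Multiplicative.toAdd z.2).1 a d u.1
  map_one' := by
    show b1 G B X W 1 (fun _ => 0) a d u.1 = 1
    unfold b1
    simp only [zet_zero, zeta_zero, ap_zero, Finset.sum_const_zero, neg_zero, sub_zero, ep_zero,
      AddChar.one_apply, mul_one]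
  map_mul' z z' := by
    obtain ⟨ψ, κ⟩ := z
    obtain ⟨ψ', κ'⟩ := z'
    show b1 G B X W (ψ * ψ') (fun σ => (Multiplicative.toAdd κ).1 σ +
      (Multiplicative.toAdd κ').1 σ) a d u.1 = _
    unfold b1
    simp only [zet_add, zeta_add, ap_add, Finset.sum_add_distrib, AddChar.mul_apply]
    rw [show ∀ x y x' y' : ZMod q, -(x + x') - (y + y') = (-x - y) + (-x' - y') from
      fun x y x' y' => by ring, H93.BX.ep_addo]
    ring

theorem bx_sum [NeZero q] [Fintype S] (a d : Pl K ⊕ Fin A.g → Gal(QBar/K))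
    (z : AddChar (AN G.Pi) ℂ × Multiplicative (ZH S q L E φb hφ)) :
    ∑ u : {u : J0 X → S // G0 G B X W u}, bx G B X W hφ a d u z =
      (Fintype.card S : ℂ) ^ (J0 X).card * Q1 G B X W z.1 (Multiplicative.toAdd z.2).1 a d := by
  have hS : (Fintype.card S : ℂ) ≠ 0 := by exact_mod_cast Fintype.card_ne_zero
  unfold Q1
  rw [mul_div_cancel₀ _ (pow_ne_zero _ hS), ← Finset.sum_filter,
    Finset.sum_subtype (p := fun u : J0 X → S => G0 G B X W u) _ (fun u => by
      rw [Finset.mem_filter]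
      exact ⟨fun h => h.2, fun h => ⟨Finset.mem_univ _, h⟩⟩)]
  rfl

end bad

end H12.FB
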