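import Pool.Agent.H12.FB.Df
import Pool.Agent.H77.INP.Inp
import Pool.Agent.H82.SF.Lvc

/-!
# [H12 FB SGN] places and words with the local generation at `S0` (MP_b39724_nt, stage 3)

`fxq`: as `H77.INP.fx_of`, for a given `Q`, and with `SGn p B`.
PROOF. (1) `lcq`: copy of `H77.S3.lca` (H77/S3/Lca.lean) with the additional output `SGn p B`: there `kk p ζ c (a i) = (T.S v hv).A i c`, `kk p ζ c (b i) = (T.S v hv).B i c` (`hka`, `hkb`).
Let `v ∈ S0`, `H`, `φ`, `U = (dec (Q.P v)).map φ`, `W` the closure of the `φ (a i)`, `φ (b i)`, `B.pl i = v`; `W ≤ U`. If `W ≠ U` there is a homomorphism `χ : U → Multiplicative (ZMod p)`, not trivial, trivial on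
`W` (a maximal subgroup of the `p`-group `U` above `W` is normal of index `p`). `f σ := χ (φ σ)` for `σ ∈ dec`, `0` otherwise (`Lev`: it depends on `φ σ` only if one defines it by `φ σ ∈ U`; additive on `dec`).
`H82.SF.chr` (`dec` and `Dc`: `H89.BRG.dc_dec`): `c : Kˣ` with `kk c σ = f σ` on `dec`. Then `A i c = B i c = 0` for all `i`, so `Lv p ζ Ω v c` (`H24.S3.sco_lv`), so `kk c = 0` on `dec` (`lv_of` is the
converse; see H82/SF/Lva and the proof of `lgx` for the direction needed), so `χ = 1`: contradiction.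
(2) `fxq`: copy of `fx_of` (H77/INP/Inp.lean) with the given `Q` and `lcq`.
-/

set_option autoImplicit false

open scoped NumberField commutatorElement
open IsDedekindDomain
open scoped Classical

noncomputable section

namespace H12.FB

open H38.ML H63.MA H38.BB H38.BG H57.PC H57.BRA H77.WD H77.WE H77.PC3 H35.CF H35.UB H77.S3 H62.BL
  H70.UX H77.GL H24.RK Pool.Agent.H19.A2 H24.S3 H77.INP H89.BRG H57.RQ H82.SF

variable {K : Type} [Field K] [NumberField K] {Ω : Type} [Field Ω] [Algebra K Ω]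
  [IsAlgClosure K Ω] {p : ℕ} {ζ : K}

private theorem sgn_one (hp : p.Prime) (hp2 : MOne p K) (hζ : IsPrimitiveRoot ζ p) {v : Pl K}
    (Q : DP K Ω) {ι : Type} [Fintype ι] (S : Sco p ζ Ω v ι) (a b : ι → Gal(Ω/K))
    (ha : ∀ i, a i ∈ dec (K := K) (Q.P v)) (hb : ∀ i, b i ∈ dec (K := K) (Q.P v))
    (hka : ∀ i c, kk p ζ c (a i) = S.A i c) (hkb : ∀ i c, kk p ζ c (b i) = S.B i c)
    (H : Type) [Group H] [Finite H] (hH : IsPGroup p H) (φ : Gal(Ω/K) →* H) (hφ : FT φ)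
    (σ : Gal(Ω/K)) (hσ : σ ∈ dec (K := K) (Q.P v)) :
    φ σ ∈ Subgroup.closure {x | ∃ i, x = φ (a i) ∨ x = φ (b i)} := by
  obtain ⟨U, hU⟩ : ∃ U : Subgroup H, U = (dec (K := K) (Q.P v)).map φ := ⟨_, rfl⟩
  obtain ⟨W, hW⟩ : ∃ W : Subgroup H, W = Subgroup.closure {x | ∃ i, x = φ (a i) ∨ x = φ (b i)} :=
    ⟨_, rfl⟩
  have hdU : ∀ τ ∈ dec (K := K) (Q.P v), φ τ ∈ U := fun τ hτ => by
    rw [hU]
    exact Subgroup.mem_map_of_mem φ hτ
  rw [← hW]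
  by_contra hcon
  have hM : W.subgroupOf U ≠ ⊤ := by
    intro h
    apply hcon
    have h1 : (⟨φ σ, hdU σ hσ⟩ : U) ∈ W.subgroupOf U := by
      rw [h]
      exact Subgroup.mem_top _
    exact Subgroup.mem_subgroupOf.1 h1
  obtain ⟨χ, hχ, hχ1⟩ := pg_char hp (hH.to_subgroup U) _ hM
  obtain ⟨f, hf, hf0⟩ : ∃ f : Gal(Ω/K) → ZMod p, (∀ τ (h : φ τ ∈ U),
      f τ = Multiplicative.toAdd (χ ⟨φ τ, h⟩)) ∧ ∀ τ, φ τ ∉ U → f τ = 0 :=
    ⟨fun τ => if h : φ τ ∈ U then Multiplicative.toAdd (χ ⟨φ τ, h⟩) else 0, fun τ h => dif_pos h,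
      fun τ h => dif_neg h⟩
  have hlev : Lev f := by
    obtain ⟨E, hE, hE1⟩ := hφ
    refine ⟨E, hE, fun τ u hu => ?_⟩
    have h1 : φ (τ * u) = φ τ := by
      rw [map_mul, MonoidHom.mem_ker.1 (hE1 hu), mul_one]
    by_cases h : φ τ ∈ U
    · have h2 : φ (τ * u) ∈ U := by rwa [h1]
      rw [hf _ h, hf _ h2]
      congr 2
      exact Subtype.ext h1
    · have h2 : φ (τ * u) ∉ U := by rwa [h1]
      rw [hf0 _ h, hf0 _ h2]
  have hadd : ∀ σ ∈ Dc K (Q.P v), ∀ τ ∈ Dc K (Q.P v), f (σ * τ) = f σ + f τ := by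
    intro x hx y hy
    have hx1 := hdU x ((dc_dec _ _).1 hx)
    have hy1 := hdU y ((dc_dec _ _).1 hy)
    have hxy : φ (x * y) ∈ U := by
      rw [map_mul]
      exact U.mul_mem hx1 hy1
    rw [hf _ hx1, hf _ hy1, hf _ hxy, ← toAdd_mul, ← map_mul]
    congr 2
    exact Subtype.ext (map_mul φ x y)
  obtain ⟨c, hc⟩ := chr hp hζ (Q.prime v) (Q.under v) hlev hadd
  have hw : ∀ τ (h : φ τ ∈ U), φ τ ∈ W → f τ = 0 := fun τ h h1 => by
    rw [hf _ h, hχ1 _ (Subgroup.mem_subgroupOf.2 h1), toAdd_one]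
  have hS : ∀ i, S.A i c = 0 ∧ S.B i c = 0 := by
    intro i
    constructor
    · rw [← hka, hc _ ((dc_dec _ _).2 (ha i))]
      refine hw _ (hdU _ (ha i)) ?_
      rw [hW]
      exact Subgroup.subset_closure ⟨i, Or.inl rfl⟩
    · rw [← hkb, hc _ ((dc_dec _ _).2 (hb i))]
      refine hw _ (hdU _ (hb i)) ?_
      rw [hW]
      exact Subgroup.subset_closure ⟨i, Or.inr rfl⟩
  have hlv := (sco_lv hp hp2 hζ S c).2 hS
  apply hχ
  refine MonoidHom.ext fun x => ?_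
  obtain ⟨x, hx⟩ := x
  have hx1 := hx
  rw [hU] at hx1
  obtain ⟨τ, hτ, rfl⟩ := hx1
  have h1 := hlv _ (Q.prime v) (Q.under v) τ ((dc_dec _ _).2 hτ)
  rw [hc _ ((dc_dec _ _).2 hτ), hf _ hx] at h1
  rw [MonoidHom.one_apply]
  exact toAdd_eq_zero.1 h1

/-- the generators `A`, `B` with the local relation `LOC` and the local generation -/
theorem lcq (hp : p.Prime) (hp2 : MOne p K) (hζ : IsPrimitiveRoot ζ p) {n k M m : ℕ} (hk : k = n + 1)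
    (hk2 : p = 2 → 2 ≤ k) (hkm : k ≤ m) {z : K} (hz : IsPrimitiveRoot z (p ^ (n + 1)))
    (hzζ : z ^ p ^ n = ζ) (hM : p ^ k ≤ M) (hM3 : p ^ 3 ≤ M) [NeZero (p ^ m)] {D : RD0 K p ζ}
    {L : LDs D Ω} {Q : DP K Ω} {Fr : FR L} {I : Fnl K Ω p m} (hI : FnC p k m D L Q Fr I) :
    ∃ (A : GS D Ω) (B : SD D Q A), SGn p B ∧ LOC k M D Q I A B := by
  obtain ⟨T⟩ := trs (Ω := Ω) hp hp2 hζ D
  have hls : ∀ v : Pl K, ∃ l : List {i : Fin T.g // T.pl i = v},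
      l.map Subtype.val = (List.finRange T.g).filter fun i => T.pl i = v := fun v =>
    CanLift.prf (β := List {i : Fin T.g // T.pl i = v}) _ fun i hi => by
      rw [List.mem_filter] at hi
      exact of_decide_eq_true hi.2
  choose l hl using hls
  have hls1 : ∀ v, (l v).Nodup := fun v => List.Nodup.of_map Subtype.val (by
    rw [hl v]
    exact (List.nodup_finRange T.g).filter _)
  have hls2 : ∀ v, ∀ i, i ∈ l v := fun v i => by
    have h1 : i.1 ∈ (l v).map Subtype.val := by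
      rw [hl v, List.mem_filter]
      exact ⟨List.mem_finRange _, decide_eq_true i.2⟩
    obtain ⟨j, hj, hji⟩ := List.mem_map.1 h1
    rw [← Subtype.ext hji]
    exact hj
  have hsy : ∀ v (hv : v ∈ D.S0), ∃ a b : {i : Fin T.g // T.pl i = v} → Gal(Ω/K),
      (∀ i, a i ∈ dec (K := K) (Q.P v)) ∧ (∀ i, b i ∈ dec (K := K) (Q.P v)) ∧
      (∀ i c, kk p ζ c (a i) = (T.S v hv).A i c) ∧ (∀ i c, kk p ζ c (b i) = (T.S v hv).B i c) ∧
      LOv k M D Q I v (l v) a b := fun v hv => by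
    obtain ⟨r, ⟨x⟩⟩ := lgx hp hp2 hζ Q v
    obtain ⟨ρ, hρ⟩ := lrlx hp hζ M hkm hI hv x
    exact syl hp hp2 hζ (by omega) hk2 hM3 x hρ (lda hp hζ hk hz hzζ hM x hρ.rel)
      (ldb hp hp2 hζ (by omega) hk2 hM3 (by omega) hI hv hρ) (T.S v hv) (hls1 v) (hls2 v)
  choose a b ha hb hka hkb hLO using hsy
  let A : GS D Ω := ⟨T.g, fun i => a (T.pl i) (T.mem i) ⟨i, rfl⟩, T.u, T.tu, fun i j => by
    rw [hka]
    exact T.dual i j, T.span⟩
  let B : SD D Q A := ⟨fun i => b (T.pl i) (T.mem i) ⟨i, rfl⟩, T.pl, T.mem, fun i => ha _ _ _,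
    fun i => hb _ _ _⟩
  have hS : SGn p B := fun v hv H _ _ hH φ hφ σ hσ => by
    refine Subgroup.closure_mono ?_ (sgn_one hp hp2 hζ Q (T.S v hv) (a v hv) (b v hv) (ha v hv)
      (hb v hv) (hka v hv) (hkb v hv) H hH φ hφ σ hσ)
    rintro x ⟨i, hx⟩
    obtain ⟨i, rfl⟩ := i
    exact ⟨i, rfl, hx⟩
  refine ⟨A, B, hS, fun v hv H H' _ _ _ _ π e c hπ hc he1 he2 hcm hH hH' lam hlam x y hx hy => ?_⟩
  have h1 := hLO v hv H H' π e c hπ hc he1 he2 hcm hH hH' lam hlam (fun j => x j.1)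
    (fun j => y j.1) (fun j => by
      obtain ⟨i, rfl⟩ := j
      exact hx i rfl) fun j => by
      obtain ⟨i, rfl⟩ := j
      exact hy i rfl
  refine h1.trans ?_
  have h2 : cw (l v) (fun j => x j.1) (fun j => y j.1) = H77.S3.blk T.pl v x y := by
    unfold cw H77.S3.blk
    rw [← hl v, List.map_map]
    rfl
  rw [h2]

theorem fxq (hp : p.Prime) (hζ : IsPrimitiveRoot ζ p) {k n : ℕ} (hk : 3 ≤ k) (hn : 2 * k + 1 ≤ n)
    {z : K} (hz : IsPrimitiveRoot z (p ^ (n + 1))) (hzζ : z ^ p ^ n = ζ) (D : RD0 K p ζ)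
    (Q : DP K Ω) :
    ∃ (A : GS D Ω) (B : SD D Q A), SGn p B ∧ ∀ L : LDs D Ω, NL (n + 1) z L → ∀ (Fr : FR L)
      (Mg Cg C' : ℕ) (Y C₁ : ℝ), GLp p Fr Mg Cg C' Y → ∀ Zw : Finset (Pl K),
        (∀ v ∈ Zw, v ∉ D.S0) → (∀ v, D.Gd v → (nm v : ℝ) ≤ Y ^ C₁ → v ∈ Zw) →
        ∀ l : List (Pl K), l.Nodup → (∀ v, v ∈ l ↔ v ∈ Zw ∨ v ∈ D.S0) →
          ∃ (W : Pl K → FW A) (Yw : Fin A.g → FW A),
            Fx k (n + 1) z Mg Cg C' C₁ Y Fr B Zw l W Yw := by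
  obtain ⟨N, rfl⟩ : ∃ N, n = N + 1 := ⟨n - 1, by omega⟩
  obtain ⟨i, rfl⟩ : ∃ i, k = i + 1 := ⟨k - 1, by omega⟩
  have hz' : Zn p (N + 1 + 1) K := ⟨z, hz⟩
  obtain ⟨hm1, hm3⟩ := mone_k hp (Nat.le_add_left 1 N) hz
  have hzp : IsPrimitiveRoot (z ^ p) (p ^ (N + 1)) := hz.pow (pow_pos hp.pos _) (by
    rw [pow_succ, mul_comm])
  have hzpz : (z ^ p) ^ p ^ N = ζ := by rw [← pow_mul, ← pow_succ', hzζ]
  have hne : NeZero (p ^ (i + 1)) := ⟨(pow_pos hp.pos _).ne'⟩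
  have hnl : ∀ L : LDs D Ω, NL (N + 1 + 1) z L → NL (N + 1) (z ^ p) L := fun L hL => by
    intro v hv
    obtain ⟨w, h2, h3⟩ := hL v hv
    refine ⟨w ^ p, ?_, ?_⟩
    · rw [← pow_mul, ← pow_succ', h2]
    · rw [map_pow, h3, mul_pow, map_pow]
  -- the root of unity of order `p ^ k`
  have hy : IsPrimitiveRoot (z ^ p ^ (N + 1 - i)) (p ^ (i + 1)) := hz.pow (pow_pos hp.pos _) (by
    rw [← pow_add]
    congr 1
    omega)
  have hyζ : (z ^ p ^ (N + 1 - i)) ^ p ^ i = ζ := by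
    rw [← pow_mul, ← pow_add, show N + 1 - i + i = N + 1 by omega, hzζ]
  obtain ⟨L₂⟩ := exists_LDs Ω hp hζ D
  obtain ⟨L₁, hL₁, -⟩ := nl_exists hp hz hζ hzζ L₂
  obtain ⟨Fr₁⟩ := H57.BRA.exists_FR hp hζ L₁
  obtain ⟨I, hI⟩ := exists_fnrn hp ⟨hm1, hm3⟩ hm1 hζ hzp hzpz (hnl _ hL₁) Q Fr₁
    (m := i + 1) (k := i + 1) (by rw [max_self]; omega)
  have hkN : i + 1 ≤ N + 1 + 1 := by omega
  have hIF := fnc_ff hp hm1 hζ hz (by omega : i + 1 + 1 ≤ N + 1 + 1) (Nat.succ_pos i) (by omega)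
    (hz'.mono hp.pos (by omega)) hI (fun _ => 1)
  have hIC : FnC p (i + 1) (i + 1) D (cjL L₁ fun _ => 1) Q (cjF Fr₁ fun _ => 1) I := hIF.1
  have hIH : FF p (i + 1) (i + 1) D (cjL L₁ fun _ => 1) Q (cjF Fr₁ fun _ => 1) I := hIF.2
  have hL₁' : NL (N + 1 + 1) z (cjL L₁ fun _ => 1) := nl_cj hL₁ _
  obtain ⟨A, B, hBS, hB⟩ := lcq hp hm1 hζ rfl (fun _ => by omega) (le_refl (i + 1)) hy hyζ
    (le_refl (p ^ (i + 1))) (Nat.pow_le_pow_right hp.pos (by omega)) hIC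
  refine ⟨A, B, hBS, fun L hL Fr Mg Cg C' Y C₁ hs Zw hZ hC₁ l hl hlZ => ?_⟩
  have hIL := fnc_nl hp hζ hz hkN hL₁' hL Fr hIC
  have hFL := ff_nl hp hζ hz hkN hL₁' hL Fr hIH
  obtain ⟨W, Yw, hR⟩ := rel_ex hp hζ hz hkN (le_refl (i + 1)) (by omega) hIL hB hZ hl hlZ
  exact ⟨W, Yw, hL, hs, hZ, hC₁, hl, hlZ, hR, fun H _ _ hH θ h1 h2 h3 =>
      crit hp hζ hFL hB hR.2.2.1 _ H rfl hH θ h1 h2 h3,
    fun v hv H _ _ hH φ hφ => hon_frm hp hζ hz hkN Fr hv hH φ hφ,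
    fun v hv H _ _ hH φ hφ => blk_one hp (by omega) hIL hB hv _ H rfl hH φ hφ⟩

end H12.FB
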